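import Mathlib
import Pool.Agent.N534.TL.Main2

/-!
# The twisted Dirichlet polynomial in a rectangle
-/

set_option autoImplicit false

namespace Pool.Agent.L0h50.NL

open Finset Pool.Agent.Y722.HS Pool.Agent.Y722.LS Pool.Agent.N534.TL MeasureTheory

section
variable {ι : Type} [Fintype ι] [DecidableEq ι] {A : ℝ} {N B : ∀ p : ℕ, (ι → ZMod p) → ℝ}

/-- The sum at the complex exponent `u`, with the weights `t`. -/
noncomputable def ZT (N : ∀ p : ℕ, (ι → ZMod p) → ℝ) (t : ℕ → ℂ) (y : ℕ) (c : ι → ℤ) (u : ℂ) : ℂ :=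
  ∑ p ∈ PR y, t p * (p : ℂ) ^ (-u) * (N p (red p c) : ℂ)

theorem ZT_diff (t : ℕ → ℂ) (y : ℕ) (c : ι → ℤ) : Differentiable ℂ (ZT N t y c) := by
  unfold ZT
  refine Differentiable.fun_sum fun p hp => ?_
  have hp0 : (p : ℂ) ≠ 0 := by exact_mod_cast (mem_PR.mp hp).2.ne_zero
  exact ((differentiable_neg.const_cpow (Or.inl hp0)).const_mul _).mul_const _

theorem ZT_sq (t : ℕ → ℂ) (y : ℕ) (c : ι → ℤ) (u : ℂ) : ‖ZT N t y c u‖ ^ 2 =
    WW N y (fun p => (t p * (p : ℂ) ^ (-u)).re) c ^ 2 +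
      WW N y (fun p => (t p * (p : ℂ) ^ (-u)).im) c ^ 2 := by
  rw [Complex.sq_norm, Complex.normSq_apply]
  have h1 : (ZT N t y c u).re = WW N y (fun p => (t p * (p : ℂ) ^ (-u)).re) c := by
    unfold ZT WW
    rw [Complex.re_sum]
    refine Finset.sum_congr rfl fun p _ => ?_
    rw [Complex.re_mul_ofReal]
  have h2 : (ZT N t y c u).im = WW N y (fun p => (t p * (p : ℂ) ^ (-u)).im) c := by
    unfold ZT WW
    rw [Complex.im_sum]
    refine Finset.sum_congr rfl fun p _ => ?_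
    rw [Complex.im_mul_ofReal]
  rw [h1, h2]
  ring

theorem wt_norm' {t : ℕ → ℂ} (ht : ∀ p, ‖t p‖ ≤ 1) (y : ℕ) (u : ℂ) (hu : -(1 / 4) ≤ u.re) :
    ∀ p ∈ PR y, ‖t p * (p : ℂ) ^ (-u)‖ ≤ 4 * (p : ℝ) ^ ((1 : ℝ) / 4) := by
  intro p hp
  rw [norm_mul]
  calc _ ≤ 1 * ‖(p : ℂ) ^ (-u)‖ := by gcongr; exact ht p
    _ ≤ _ := by rw [one_mul]; exact wt_norm y u hu p hp

theorem EB_ZT (h : Fam A N B) {t : ℕ → ℂ} (ht : ∀ p, ‖t p‖ ≤ 1) (H y : ℕ) (hy : y ^ 4 ≤ H) (u : ℂ)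
    (hu : -(1 / 4) ≤ u.re) : EB H (fun c : ι → ℤ => ‖ZT N t y c u‖ ^ 2) ≤ 2 * K1 ι A := by
  simp only [ZT_sq]
  rw [EB_add]
  have h1 := h.EB_WW_sq H y hy (fun p => (t p * (p : ℂ) ^ (-u)).re)
    fun p hp => (Complex.abs_re_le_norm _).trans (wt_norm' ht y u hu p hp)
  have h2 := h.EB_WW_sq H y hy (fun p => (t p * (p : ℂ) ^ (-u)).im)
    fun p hp => (Complex.abs_im_le_norm _).trans (wt_norm' ht y u hu p hp)
  linarith

/-- The majorant. -/
noncomputable def G3 (N : ∀ p : ℕ, (ι → ZMod p) → ℝ) (t : ℕ → ℂ) (y K : ℕ) (c : ι → ℤ) : ℝ :=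
  ∑ k ∈ Finset.Icc (-(K : ℤ)) K, ∫ φ in (0 : ℝ)..2 * Real.pi,
    ‖ZT N t y c (circleMap (ctr k) (7 / 10) φ)‖ ^ 2

theorem G3_nonneg (t : ℕ → ℂ) (y K : ℕ) (c : ι → ℤ) : 0 ≤ G3 N t y K c :=
  Finset.sum_nonneg fun k _ =>
    intervalIntegral.integral_nonneg (by positivity) fun φ _ => by positivity

theorem ZT_le (t : ℕ → ℂ) (y K : ℕ) (c : ι → ℤ) (ε τ : ℝ) (h0 : 0 ≤ ε) (h1 : ε ≤ 1)
    (hτ : 4 * |τ| + 1 ≤ K) : ‖ZT N t y c (ε + τ * Complex.I)‖ ^ 2 ≤ G3 N t y K c := by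
  set k : ℤ := round (4 * τ) with hk
  have h2 : |4 * τ - k| ≤ 1 / 2 := abs_sub_round (4 * τ)
  have h3 : k ∈ Finset.Icc (-(K : ℤ)) K := by
    rw [Finset.mem_Icc]
    have h4 := abs_le.mp h2
    have h5 := neg_abs_le τ
    have h6 := le_abs_self τ
    constructor
    · have : (-(K : ℝ)) ≤ (k : ℝ) := by linarith
      exact_mod_cast this
    · have : (k : ℝ) ≤ (K : ℝ) := by linarith
      exact_mod_cast this
  have h4 : ‖((ε : ℂ) + τ * Complex.I) - ctr k‖ ≤ 13 / 25 := by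
    have e : ((ε : ℂ) + τ * Complex.I) - ctr k =
        ((ε - 1 / 2 : ℝ) : ℂ) + ((τ - k / 4 : ℝ) : ℂ) * Complex.I := by
      unfold ctr
      push_cast
      ring
    rw [e]
    have h5 : |τ - k / 4| ≤ 1 / 8 := by
      have : τ - k / 4 = (4 * τ - k) / 4 := by ring
      rw [this, abs_div]
      norm_num
      linarith
    have h6 : |ε - 1 / 2| ≤ 1 / 2 := by
      rw [abs_le]
      constructor <;> linarith
    have h7 : ‖((ε - 1 / 2 : ℝ) : ℂ) + ((τ - k / 4 : ℝ) : ℂ) * Complex.I‖ ^ 2 ≤ (13 / 25) ^ 2 := by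
      rw [Complex.sq_norm, Complex.normSq_add_mul_I]
      have a1 : (ε - 1 / 2) ^ 2 ≤ (1 / 2) ^ 2 := sq_le_sq' (by linarith) (by linarith)
      have a2 : (τ - k / 4) ^ 2 ≤ (1 / 8) ^ 2 := by
        have := abs_le.mp h5
        exact sq_le_sq' this.1 this.2
      norm_num at a1 a2 ⊢
      linarith
    exact le_of_sq_le_sq h7 (by norm_num)
  refine (circ (ZT_diff t y c) (ctr k) _ h4).trans ?_
  exact Finset.single_le_sum (f := fun k : ℤ => ∫ φ in (0 : ℝ)..2 * Real.pi,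
    ‖ZT N t y c (circleMap (ctr k) (7 / 10) φ)‖ ^ 2)
    (fun k _ => intervalIntegral.integral_nonneg (by positivity) fun φ _ => by positivity) h3

theorem EB_G3 (h : Fam A N B) {t : ℕ → ℂ} (ht : ∀ p, ‖t p‖ ≤ 1) (H y K : ℕ) (hy : y ^ 4 ≤ H) :
    EB H (fun c : ι → ℤ => G3 N t y K c) ≤ (2 * K + 1) * (4 * Real.pi * K1 ι A) := by
  unfold G3
  rw [EB_sum]
  have hcont : ∀ (k : ℤ) (c : ι → ℤ),
      Continuous fun φ : ℝ => ‖ZT N t y c (circleMap (ctr k) (7 / 10) φ)‖ ^ 2 :=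
    fun k c => ((ZT_diff t y c).continuous.comp (continuous_circleMap _ _)).norm.pow 2
  have h1 : ∀ k ∈ Finset.Icc (-(K : ℤ)) K, EB H (fun c : ι → ℤ => ∫ φ in (0 : ℝ)..2 * Real.pi,
      ‖ZT N t y c (circleMap (ctr k) (7 / 10) φ)‖ ^ 2) ≤ 4 * Real.pi * K1 ι A := by
    intro k _
    have h3 : EB H (fun c : ι → ℤ => ∫ φ in (0 : ℝ)..2 * Real.pi,
        ‖ZT N t y c (circleMap (ctr k) (7 / 10) φ)‖ ^ 2) =
        ∫ φ in (0 : ℝ)..2 * Real.pi, EB H (fun c : ι → ℤ =>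
          ‖ZT N t y c (circleMap (ctr k) (7 / 10) φ)‖ ^ 2) := by
      unfold EB
      rw [intervalIntegral.integral_div, intervalIntegral.integral_finsetSum]
      intro c _
      exact (hcont k c).intervalIntegrable _ _
    have hcont2 : Continuous fun φ : ℝ => EB H (fun c : ι → ℤ =>
        ‖ZT N t y c (circleMap (ctr k) (7 / 10) φ)‖ ^ 2) := by
      unfold EB
      exact (continuous_finsetSum _ fun c _ => hcont k c).div_const _
    rw [h3]
    calc _ ≤ ∫ φ in (0 : ℝ)..2 * Real.pi, 2 * K1 ι A := by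
          apply intervalIntegral.integral_mono_on (by positivity) (hcont2.intervalIntegrable _ _)
            (by simp)
          intro φ _
          apply EB_ZT h ht H y hy
          have h5 : ‖circleMap (ctr k) (7 / 10) φ - ctr k‖ = 7 / 10 := by simp [circleMap]
          have h6 := (Complex.abs_re_le_norm (circleMap (ctr k) (7 / 10) φ - ctr k)).trans h5.le
          have h7 : (ctr k).re = 1 / 2 := by simp [ctr]
          rw [Complex.sub_re, h7] at h6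
          have := (abs_le.mp h6).1
          linarith
      _ = _ := by
          rw [intervalIntegral.integral_const]
          simp only [sub_zero, smul_eq_mul]
          ring
  refine (Finset.sum_le_sum h1).trans ?_
  rw [Finset.sum_const, nsmul_eq_mul, Int.card_Icc]
  have h2 : ((K : ℤ) + 1 - -(K : ℤ)).toNat = 2 * K + 1 := by omega
  rw [h2]
  push_cast
  exact le_rfl

end

end Pool.Agent.L0h50.NL
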