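import Mathlib
import Pool.Agent.Y722.HS.LSum

/-!
# Complete intersections in a variety: definitions

`Z` is a smooth projective variety in `ℙ^N` over `ℚ`, of dimension `n + r`, and `X_c` the intersection of `Z`
with the `r` hypersurfaces `F_{c,j} = 0`, `j < r`, where `F_{c,j}` is the form of degree `d_j` with the integer
coefficients `c_j`.
-/

set_option autoImplicit false

namespace Pool.Agent.L0h50.NL

open Pool.Agent.Y722.HS (Mon form)

/-- The number of the points, over the field with `p ^ e` elements, `e ≥ 1`, of the subscheme of `ℙ^N` with the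
homogeneous equations `g = 0`, `g ∈ E` (reduced modulo `p`): the number of the nonzero vectors with
`g = 0` for all `g ∈ E` is divided by `p ^ e - 1`. -/
noncomputable def points {N : ℕ} (E : Set (MvPolynomial (Fin (N + 1)) ℤ)) (p e : ℕ) [Fact p.Prime] : ℂ :=
  (Nat.card {x : Fin (N + 1) → GaloisField p e // x ≠ 0 ∧ ∀ g ∈ E, MvPolynomial.aeval x g = 0} : ℂ) /
    ((p : ℂ) ^ e - 1)

/-- `β p k j`, `j < b k`, are the eigenvalues of the geometric Frobenius at `p` on the `k`-th cohomology group of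
the smooth projective variety `Z`, of dimension `D`, with the equations `E`, for all primes `p ≥ p₀`, where
`Z` has good reduction at these primes: they are of absolute value `p ^ (k / 2)`, the alternating sum
of the traces of the `e`-th power of Frobenius is the number of points over the field with `p ^ e` elements
(Deligne, Grothendieck), and the trace on `H^{2D - k}` is `p ^ ((D - k) e)` times the trace on `H^k` for `k ≤ D`
(hard Lefschetz theorem). -/
structure IsCohomology {N : ℕ} (E : Set (MvPolynomial (Fin (N + 1)) ℤ)) (D p₀ : ℕ) (b : ℕ → ℕ)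
    (β : ∀ _p k : ℕ, Fin (b k) → ℂ) : Prop where
  weight : ∀ p : ℕ, p.Prime → p₀ ≤ p → ∀ k j, ‖β p k j‖ = (p : ℝ) ^ ((k : ℝ) / 2)
  trace : ∀ (p : ℕ) [Fact p.Prime], p₀ ≤ p → ∀ e : ℕ, 1 ≤ e →
    points E p e = ∑ k ∈ Finset.range (2 * D + 1), (-1) ^ k * ∑ j, β p k j ^ e
  lefschetz : ∀ p : ℕ, p.Prime → p₀ ≤ p → ∀ k : ℕ, k ≤ D → ∀ e : ℕ, 1 ≤ e →
    ∑ j, β p (2 * D - k) j ^ e = (p : ℂ) ^ ((D - k) * e) * ∑ j, β p k j ^ e

/-- The index set of the coefficients of `r` forms of degrees `d_0, …, d_{r-1}` in `N + 1` variables. -/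
abbrev Coef (N : ℕ) {r : ℕ} (d : Fin r → ℕ) : Type := Σ j : Fin r, Mon N (d j)

/-- The equations of `X_c`: the equations of `Z`, and `F_{c,j} = 0` for all `j < r`. -/
noncomputable def member {N r : ℕ} (E : Set (MvPolynomial (Fin (N + 1)) ℤ)) {d : Fin r → ℕ}
    (c : Coef N d → ℤ) : Set (MvPolynomial (Fin (N + 1)) ℤ) :=
  E ∪ Set.range fun j => form fun ν => c ⟨j, ν⟩

/-- The trace of the `e`-th power of Frobenius at `p` on `H^n(X_c)`, `n = dim X_c`, if `X_c` has good reduction.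
By the theorems of Lefschetz, `H^k(X_c)` is `H^k(Z)` for `k < n`, and `H^{2n - k}(X_c)` is `H^k(Z)(k - n)`; the sum
of all the traces with signs is the number of points. -/
noncomputable def middle {N r : ℕ} (E : Set (MvPolynomial (Fin (N + 1)) ℤ)) {d : Fin r → ℕ} (n : ℕ)
    {b : ℕ → ℕ} (β : ∀ _p k : ℕ, Fin (b k) → ℂ) (c : Coef N d → ℤ) (p e : ℕ) [Fact p.Prime] : ℂ :=
  (-1) ^ n * (points (member E c) p e -
    ∑ k ∈ Finset.range n, (-1) ^ k * (1 + (p : ℂ) ^ ((n - k) * e)) * ∑ j, β p k j ^ e)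

/-- `α p j`, `j < B`, are the eigenvalues of the Frobenius at `p` of `H^n(X_c) ⊗ Θ`, zeros added if necessary,
where `Θ` has the eigenvalues `θ p i` at `p`: the absolute values are at most `p ^ (n / 2)` for all primes `p`, and the
power sums are the products of the traces if `p ≥ p₀` does not divide `P(c)`. -/
structure IsMember {N r : ℕ} (E : Set (MvPolynomial (Fin (N + 1)) ℤ)) {d : Fin r → ℕ} (n p₀ : ℕ)
    {b : ℕ → ℕ} (β : ∀ _p k : ℕ, Fin (b k) → ℂ) (P : MvPolynomial (Coef N d) ℤ) {ρ : ℕ}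
    (θ : ℕ → Fin ρ → ℂ) (c : Coef N d → ℤ) {B : ℕ} (α : ℕ → Fin B → ℂ) : Prop where
  bound : ∀ p : ℕ, p.Prime → ∀ j, ‖α p j‖ ≤ (p : ℝ) ^ ((n : ℝ) / 2)
  power : ∀ (p : ℕ) [Fact p.Prime], p₀ ≤ p → ¬ (p : ℤ) ∣ MvPolynomial.eval c P → ∀ e : ℕ, 1 ≤ e →
    ∑ j, α p j ^ e = middle E n β c p e * ∑ i, θ p i ^ e

/-- `γ p j`, `j < B`, are the eigenvalues of the Frobenius at `p` of `H^n(Z) ⊗ Θ`, zeros added if necessary. -/
structure IsAmbient (n p₀ : ℕ) {b : ℕ → ℕ} (β : ∀ _p k : ℕ, Fin (b k) → ℂ) {ρ : ℕ}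
    (θ : ℕ → Fin ρ → ℂ) {B : ℕ} (γ : ℕ → Fin B → ℂ) : Prop where
  bound : ∀ p : ℕ, p.Prime → ∀ j, ‖γ p j‖ ≤ (p : ℝ) ^ ((n : ℝ) / 2)
  power : ∀ p : ℕ, p.Prime → p₀ ≤ p → ∀ e : ℕ, 1 ≤ e →
    ∑ j, γ p j ^ e = (∑ j, β p n j ^ e) * ∑ i, θ p i ^ e

end Pool.Agent.L0h50.NL
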