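import Mathlib
import Pool.Agent.L0h50.NL.Defs
import Pool.Agent.Y722.LS.Gen

/-!
# First and second moment of the number of the points of a complete intersection over a finite field
-/

set_option autoImplicit false

namespace Pool.Agent.L0h50.NL

open Finset Pool.Agent.Y722.HS Pool.Agent.Y722.LS

section
variable {N r : ℕ} {d : Fin r → ℕ} {p : ℕ} [Fact p.Prime]

/-- The values of the `r` forms at a vector. -/
noncomputable def vals (c : Coef N d → ZMod p) (x : Fin (N + 1) → ZMod p) : Fin r → ZMod p :=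
  fun j => val (fun ν => c ⟨j, ν⟩) x

theorem vals_add (a b : Coef N d → ZMod p) (x : Fin (N + 1) → ZMod p) :
    vals (a + b) x = vals a x + vals b x := by
  funext j
  exact val_add (fun ν => a ⟨j, ν⟩) (fun ν => b ⟨j, ν⟩) x

theorem vals_zero (x : Fin (N + 1) → ZMod p) : vals (0 : Coef N d → ZMod p) x = 0 := by
  funext j
  simp [vals, Pool.Agent.Y722.HS.val]

theorem exists_vals (hd : ∀ j, 1 ≤ d j) (x : Fin (N + 1) → ZMod p) (hx : x ≠ 0) (t : Fin r → ZMod p) :
    ∃ c : Coef N d → ZMod p, vals c x = t := by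
  choose c hc using fun j => exists_val_ne (hd j) x hx (t j)
  exact ⟨fun m => c m.1 m.2, funext fun j => hc j⟩

theorem exists_vals_pair (hd : ∀ j, 1 ≤ d j) (x y : Fin (N + 1) → ZMod p) (hx : x ≠ 0)
    (i j : Fin (N + 1)) (hij : x i * y j ≠ x j * y i) (t : Fin r → ZMod p) :
    ∃ c : Coef N d → ZMod p, vals c x = t ∧ vals c y = 0 := by
  choose c hc using fun k => exists_val_pair (hd k) x y hx i j hij (t k)
  exact ⟨fun m => c m.1 m.2, funext fun k => (hc k).1, funext fun k => (hc k).2⟩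

theorem card_coef : Nat.card (Coef N d → ZMod p) = p ^ Fintype.card (Coef N d) := by
  rw [Nat.card_eq_fintype_card, Fintype.card_fun, ZMod.card]

theorem card_fin : Nat.card (Fin r → ZMod p) = p ^ r := by
  rw [Nat.card_eq_fintype_card, Fintype.card_fun, ZMod.card, Fintype.card_fin]

theorem vcard_one (hd : ∀ j, 1 ≤ d j) (x : Fin (N + 1) → ZMod p) (hx : x ≠ 0) :
    Nat.card {c : Coef N d → ZMod p // vals c x = 0} * p ^ r = p ^ Fintype.card (Coef N d) := by
  set f : (Coef N d → ZMod p) →+ (Fin r → ZMod p) :=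
    { toFun := fun c => vals c x
      map_zero' := vals_zero x
      map_add' := fun a b => vals_add a b x } with hf
  have h1 := card_ker f (fun t => exists_vals hd x hx t)
  rw [card_coef, card_fin] at h1
  exact h1

theorem vcard_two (hd : ∀ j, 1 ≤ d j) (x y : Fin (N + 1) → ZMod p) (hx : x ≠ 0) (hy : y ≠ 0)
    (i j : Fin (N + 1)) (hij : x i * y j ≠ x j * y i) :
    Nat.card {c : Coef N d → ZMod p // vals c x = 0 ∧ vals c y = 0} * (p ^ r * p ^ r) =
      p ^ Fintype.card (Coef N d) := by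
  set f : (Coef N d → ZMod p) →+ (Fin r → ZMod p) × (Fin r → ZMod p) :=
    { toFun := fun c => (vals c x, vals c y)
      map_zero' := by simp [vals_zero]
      map_add' := fun a b => by simp [vals_add] } with hf
  have hsurj : Function.Surjective f := by
    rintro ⟨s, t⟩
    obtain ⟨c, hc1, hc2⟩ := exists_vals_pair hd x y hx i j hij s
    obtain ⟨c', hc1', hc2'⟩ := exists_vals_pair hd y x hy i j
      (fun h => hij (by rw [mul_comm (x i), mul_comm (x j)]; exact h.symm)) t
    refine ⟨c + c', ?_⟩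
    change (vals (c + c') x, vals (c + c') y) = (s, t)
    rw [vals_add, vals_add, hc1, hc2, hc1', hc2', add_zero, zero_add]
  have h1 := card_ker f hsurj
  have h2 : Nat.card {g // f g = 0} =
      Nat.card {c : Coef N d → ZMod p // vals c x = 0 ∧ vals c y = 0} := by
    refine Nat.card_congr (Equiv.subtypeEquivRight fun c => ?_)
    change (vals c x, vals c y) = (0, 0) ↔ _
    rw [Prod.mk.injEq]
  rw [h2, Nat.card_prod, card_coef, card_fin] at h1
  exact h1

open Classical in
/-- The nonzero vectors on the cone over `Z`. -/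
noncomputable def ZZp (E : Set (MvPolynomial (Fin (N + 1)) ℤ)) (p : ℕ) [Fact p.Prime] :
    Finset (Fin (N + 1) → ZMod p) :=
  (XX N p).filter (fun x => ∀ g ∈ E, MvPolynomial.aeval x g = 0)

variable {E : Set (MvPolynomial (Fin (N + 1)) ℤ)}

theorem mem_ZZp {x : Fin (N + 1) → ZMod p} :
    x ∈ ZZp E p ↔ x ≠ 0 ∧ ∀ g ∈ E, MvPolynomial.aeval x g = 0 := by
  classical
  rw [ZZp, Finset.mem_filter, mem_XX]

open Classical in
/-- The number of the nonzero vectors on the cone over `X_c`. -/
noncomputable def scnt (E : Set (MvPolynomial (Fin (N + 1)) ℤ)) (p : ℕ) [Fact p.Prime]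
    (c : Coef N d → ZMod p) : ℝ :=
  ∑ x ∈ ZZp E p, if vals c x = 0 then (1 : ℝ) else 0

theorem vcnt_one (hd : ∀ j, 1 ≤ d j) (x : Fin (N + 1) → ZMod p) (hx : x ∈ ZZp E p) :
    ∑ c : Coef N d → ZMod p, (if vals c x = 0 then (1 : ℝ) else 0) =
      (p : ℝ) ^ Fintype.card (Coef N d) / (p : ℝ) ^ r := by
  classical
  have h1 := vcard_one hd x (mem_ZZp.mp hx).1
  rw [Nat.card_eq_fintype_card, Fintype.card_subtype] at h1
  rw [← Finset.sum_filter, Finset.sum_const, nsmul_eq_mul, mul_one]
  have hp0 : (0 : ℝ) < p := by exact_mod_cast (Fact.out : p.Prime).pos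
  rw [eq_div_iff (by positivity)]
  exact_mod_cast h1

theorem vcnt_two (hd : ∀ j, 1 ≤ d j) (x y : Fin (N + 1) → ZMod p) (hx : x ∈ ZZp E p)
    (hy : y ∈ ZZp E p) (h : ¬ ∀ i j, x i * y j = x j * y i) :
    ∑ c : Coef N d → ZMod p, ((if vals c x = 0 then (1 : ℝ) else 0) *
      (if vals c y = 0 then (1 : ℝ) else 0)) =
        (p : ℝ) ^ Fintype.card (Coef N d) / ((p : ℝ) ^ r * (p : ℝ) ^ r) := by
  classical
  push Not at h
  obtain ⟨i, j, hij⟩ := h
  have h1 := vcard_two hd x y (mem_ZZp.mp hx).1 (mem_ZZp.mp hy).1 i j hij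
  rw [Nat.card_eq_fintype_card, Fintype.card_subtype] at h1
  have h2 : ∀ c : Coef N d → ZMod p, ((if vals c x = 0 then (1 : ℝ) else 0) *
      (if vals c y = 0 then (1 : ℝ) else 0)) =
      if (vals c x = 0 ∧ vals c y = 0) then (1 : ℝ) else 0 := by
    intro c
    by_cases h3 : vals c x = 0 <;> by_cases h4 : vals c y = 0 <;> simp [h3, h4]
  rw [Finset.sum_congr rfl fun c _ => h2 c, ← Finset.sum_filter, Finset.sum_const, nsmul_eq_mul,
    mul_one]
  have hp0 : (0 : ℝ) < p := by exact_mod_cast (Fact.out : p.Prime).pos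
  rw [eq_div_iff (by positivity)]
  exact_mod_cast h1

/-- The number of points minus its mean. -/
noncomputable def dev (E : Set (MvPolynomial (Fin (N + 1)) ℤ)) (p : ℕ) [Fact p.Prime]
    (c : Coef N d → ZMod p) : ℝ :=
  scnt E p c - (ZZp E p).card / (p : ℝ) ^ r

theorem sum_scnt (hd : ∀ j, 1 ≤ d j) : ∑ c : Coef N d → ZMod p, scnt E p c =
    (ZZp E p).card / (p : ℝ) ^ r * (p : ℝ) ^ Fintype.card (Coef N d) := by
  unfold scnt
  rw [Finset.sum_comm, Finset.sum_congr rfl fun x hx => vcnt_one hd x hx, Finset.sum_const,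
    nsmul_eq_mul]
  ring

theorem sum_dev (hd : ∀ j, 1 ≤ d j) : ∑ c : Coef N d → ZMod p, dev E p c = 0 := by
  unfold dev
  rw [Finset.sum_sub_distrib, sum_scnt hd, Finset.sum_const, nsmul_eq_mul,
    Finset.card_univ, Fintype.card_fun, ZMod.card]
  push_cast
  ring

theorem sum_scnt_sq (hd : ∀ j, 1 ≤ d j) : ∑ c : Coef N d → ZMod p, scnt E p c ^ 2 ≤
    ((ZZp E p).card * p / (p : ℝ) ^ r + ((ZZp E p).card / (p : ℝ) ^ r) ^ 2) *
      (p : ℝ) ^ Fintype.card (Coef N d) := by
  classical
  have hp0 : (0 : ℝ) < p := by exact_mod_cast (Fact.out : p.Prime).pos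
  have h1 : ∀ c : Coef N d → ZMod p, scnt E p c ^ 2 = ∑ x ∈ ZZp E p, ∑ y ∈ ZZp E p,
      ((if vals c x = 0 then (1 : ℝ) else 0) * (if vals c y = 0 then (1 : ℝ) else 0)) := by
    intro c
    rw [scnt, sq, Finset.sum_mul_sum]
  rw [Finset.sum_congr rfl fun c _ => h1 c, Finset.sum_comm]
  have h2 : ∀ x ∈ ZZp E p, ∑ c : Coef N d → ZMod p, ∑ y ∈ ZZp E p,
      ((if vals c x = 0 then (1 : ℝ) else 0) * (if vals c y = 0 then (1 : ℝ) else 0)) ≤
      (p : ℝ) * ((p : ℝ) ^ Fintype.card (Coef N d) / (p : ℝ) ^ r) +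
        (ZZp E p).card * ((p : ℝ) ^ Fintype.card (Coef N d) / ((p : ℝ) ^ r * (p : ℝ) ^ r)) := by
    intro x hx
    rw [Finset.sum_comm, ← Finset.sum_filter_add_sum_filter_not (ZZp E p)
      (fun y => ∀ i j, x i * y j = x j * y i)]
    refine add_le_add ?_ ?_
    · have h3 : ∀ y ∈ (ZZp E p).filter (fun y => ∀ i j, x i * y j = x j * y i),
          ∑ c : Coef N d → ZMod p, ((if vals c x = 0 then (1 : ℝ) else 0) *
            (if vals c y = 0 then (1 : ℝ) else 0)) ≤
              (p : ℝ) ^ Fintype.card (Coef N d) / (p : ℝ) ^ r := by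
        intro y _
        rw [← vcnt_one hd x hx]
        refine Finset.sum_le_sum fun c _ => ?_
        split_ifs <;> norm_num
      refine (Finset.sum_le_sum h3).trans ?_
      rw [Finset.sum_const, nsmul_eq_mul]
      have h4 : (((ZZp E p).filter (fun y => ∀ i j, x i * y j = x j * y i)).card : ℝ) ≤ p := by
        have h5 := card_prop x (mem_ZZp.mp hx).1
        have h6 : ((ZZp E p).filter (fun y => ∀ i j, x i * y j = x j * y i)).card ≤
            ((XX N p).filter (fun y => ∀ i j, x i * y j = x j * y i)).card := by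
          apply Finset.card_le_card
          apply Finset.filter_subset_filter
          exact Finset.filter_subset _ _
        exact_mod_cast h6.trans h5
      gcongr
    · have h3 : ∀ y ∈ (ZZp E p).filter (fun y => ¬ ∀ i j, x i * y j = x j * y i),
          ∑ c : Coef N d → ZMod p, ((if vals c x = 0 then (1 : ℝ) else 0) *
            (if vals c y = 0 then (1 : ℝ) else 0)) =
              (p : ℝ) ^ Fintype.card (Coef N d) / ((p : ℝ) ^ r * (p : ℝ) ^ r) := by
        intro y hy
        rw [Finset.mem_filter] at hy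
        exact vcnt_two hd x y hx hy.1 hy.2
      rw [Finset.sum_congr rfl h3, Finset.sum_const, nsmul_eq_mul]
      gcongr
      exact Finset.filter_subset _ _
  refine (Finset.sum_le_sum h2).trans ?_
  rw [Finset.sum_const, nsmul_eq_mul]
  apply le_of_eq
  field_simp

theorem sum_dev_sq (hd : ∀ j, 1 ≤ d j) : ∑ c : Coef N d → ZMod p, dev E p c ^ 2 ≤
    ((ZZp E p).card * p / (p : ℝ) ^ r) * (p : ℝ) ^ Fintype.card (Coef N d) := by
  set μ : ℝ := (ZZp E p).card / (p : ℝ) ^ r with hμ
  have h1 : ∀ c : Coef N d → ZMod p, dev E p c ^ 2 =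
      scnt E p c ^ 2 - 2 * μ * scnt E p c + μ ^ 2 := by
    intro c
    unfold dev
    rw [← hμ]
    ring
  rw [Finset.sum_congr rfl fun c _ => h1 c, Finset.sum_add_distrib, Finset.sum_sub_distrib,
    ← Finset.mul_sum, sum_scnt hd, Finset.sum_const, nsmul_eq_mul, Finset.card_univ, Fintype.card_fun,
    ZMod.card, ← hμ]
  have h2 := sum_scnt_sq (E := E) (p := p) hd
  rw [← hμ] at h2
  push_cast
  nlinarith [h2]

end

end Pool.Agent.L0h50.NL
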