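import Mathlib
import Pool.Agent.L0h50.NL.Count

/-!
# The trace of Frobenius on the middle cohomology and the number of points
-/

set_option autoImplicit false

namespace Pool.Agent.L0h50.NL

open Finset Pool.Agent.Y722.HS Pool.Agent.Y722.LS

section
variable {N r : ℕ} {d : Fin r → ℕ} {E : Set (MvPolynomial (Fin (N + 1)) ℤ)}

theorem card_field (S : Set (MvPolynomial (Fin (N + 1)) ℤ)) (p : ℕ) [Fact p.Prime] :
    Nat.card {x : Fin (N + 1) → GaloisField p 1 // x ≠ 0 ∧ ∀ g ∈ S, MvPolynomial.aeval x g = 0} =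
      Nat.card {x : Fin (N + 1) → ZMod p // x ≠ 0 ∧ ∀ g ∈ S, MvPolynomial.aeval x g = 0} := by
  set φ := GaloisField.equivZmodP p with hφ
  refine Nat.card_congr (Equiv.subtypeEquiv (Equiv.piCongrRight fun _ => φ.toEquiv) fun x => ?_)
  have h1 : (Equiv.piCongrRight fun _ : Fin (N + 1) => φ.toEquiv) x = fun i => φ (x i) := rfl
  rw [h1]
  refine and_congr (not_congr ?_) (forall_congr' fun g => imp_congr_right fun _ => ?_)
  · constructor
    · rintro rfl
      funext i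
      simp
    · intro h
      funext i
      have h2 := congrFun h i
      simpa using h2
  · have h2 := MvPolynomial.comp_aeval_apply x ((φ : GaloisField p 1 →+* ZMod p).toIntAlgHom) g
    have h3 : ((φ : GaloisField p 1 →+* ZMod p).toIntAlgHom) (MvPolynomial.aeval x g) =
        φ (MvPolynomial.aeval x g) := rfl
    have h4 : MvPolynomial.aeval (fun i => ((φ : GaloisField p 1 →+* ZMod p).toIntAlgHom) (x i)) g =
        MvPolynomial.aeval (fun i => φ (x i)) g := rfl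
    rw [h3, h4] at h2
    rw [← h2]
    exact (map_eq_zero_iff φ φ.injective).symm

theorem aeval_form {d' : ℕ} {p : ℕ} [Fact p.Prime] (c : Mon N d' → ℤ) (x : Fin (N + 1) → ZMod p) :
    MvPolynomial.aeval x (form c) = Pool.Agent.Y722.HS.val (fun ν => ((c ν : ℤ) : ZMod p)) x := by
  unfold form Pool.Agent.Y722.HS.val mev
  rw [map_sum]
  refine Finset.sum_congr rfl fun m _ => ?_
  rw [map_mul, map_prod]
  simp

theorem card_member (c : Coef N d → ℤ) (p : ℕ) [Fact p.Prime] :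
    (Nat.card {x : Fin (N + 1) → ZMod p // x ≠ 0 ∧ ∀ g ∈ member E c, MvPolynomial.aeval x g = 0} : ℝ) =
      scnt E p (red p c) := by
  classical
  unfold scnt
  rw [← Finset.sum_filter, Finset.sum_const, nsmul_eq_mul, mul_one, Nat.card_eq_fintype_card,
    Fintype.card_subtype]
  congr 2
  ext x
  rw [Finset.mem_filter, Finset.mem_filter, mem_ZZp]
  have h1 : (∀ g ∈ member E c, MvPolynomial.aeval x g = 0) ↔
      (∀ g ∈ E, MvPolynomial.aeval x g = 0) ∧ vals (red p c) x = 0 := by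
    constructor
    · intro h
      refine ⟨fun g hg => h g (Or.inl hg), funext fun j => ?_⟩
      have h2 := h _ (Or.inr ⟨j, rfl⟩)
      rw [aeval_form] at h2
      exact h2
    · rintro ⟨h2, h3⟩ g hg
      rcases hg with hg | ⟨j, rfl⟩
      · exact h2 g hg
      · rw [aeval_form]
        exact congrFun h3 j
  rw [h1]
  simp only [Finset.mem_univ, true_and]
  tauto

theorem card_ambient (p : ℕ) [Fact p.Prime] :
    (Nat.card {x : Fin (N + 1) → ZMod p // x ≠ 0 ∧ ∀ g ∈ E, MvPolynomial.aeval x g = 0} : ℝ) =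
      (ZZp E p).card := by
  classical
  rw [Nat.card_eq_fintype_card, Fintype.card_subtype]
  congr 2
  ext x
  rw [Finset.mem_filter, mem_ZZp]
  simp

theorem points_member (c : Coef N d → ℤ) (p : ℕ) [Fact p.Prime] :
    points (member E c) p 1 = ((scnt E p (red p c) / ((p : ℝ) - 1) : ℝ) : ℂ) := by
  unfold points
  rw [card_field, ← card_member]
  push_cast
  rw [pow_one]

theorem points_ambient (p : ℕ) [Fact p.Prime] :
    points E p 1 = (((ZZp E p).card / ((p : ℝ) - 1) : ℝ) : ℂ) := by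
  unfold points
  rw [card_field, ← card_ambient]
  push_cast
  rw [pow_one]

/-- The constant of the error term. -/
def CE (n r : ℕ) (b : ℕ → ℕ) : ℕ := ∑ k ∈ range (n + 2 * r), b k + ∑ k ∈ range n, b k

theorem tr_le {D p₀ : ℕ} {b : ℕ → ℕ} {β : ∀ _p k : ℕ, Fin (b k) → ℂ} (h : IsCohomology E D p₀ b β)
    (p : ℕ) (hp : p.Prime) (hp₀ : p₀ ≤ p) (k : ℕ) : ‖∑ j, β p k j‖ ≤ b k * (p : ℝ) ^ ((k : ℝ) / 2) := by
  refine (norm_sum_le _ _).trans ?_
  rw [Finset.sum_congr rfl fun j _ => h.weight p hp hp₀ k j, Finset.sum_const, nsmul_eq_mul,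
    Finset.card_univ, Fintype.card_fin]

theorem card_le {D p₀ : ℕ} {b : ℕ → ℕ} {β : ∀ _p k : ℕ, Fin (b k) → ℂ} (h : IsCohomology E D p₀ b β)
    (p : ℕ) [Fact p.Prime] (hp₀ : p₀ ≤ p) :
    ((ZZp E p).card : ℝ) ≤ (∑ k ∈ range (2 * D + 1), b k : ℕ) * (((p : ℝ) - 1) * (p : ℝ) ^ D) := by
  have hp := (Fact.out : p.Prime)
  have hp1 : (1 : ℝ) ≤ p := by exact_mod_cast hp.one_lt.le
  have hp2 : (0 : ℝ) < (p : ℝ) - 1 := by
    have : (1 : ℝ) < p := by exact_mod_cast hp.one_lt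
    linarith
  have h1 := h.trace p hp₀ 1 le_rfl
  rw [points_ambient] at h1
  have h2 : ‖((((ZZp E p).card / ((p : ℝ) - 1) : ℝ)) : ℂ)‖ = (ZZp E p).card / ((p : ℝ) - 1) := by
    rw [Complex.norm_real, Real.norm_of_nonneg (by positivity)]
  have h3 : ‖∑ k ∈ Finset.range (2 * D + 1), (-1 : ℂ) ^ k * ∑ j, β p k j ^ 1‖ ≤
      (∑ k ∈ range (2 * D + 1), b k : ℕ) * (p : ℝ) ^ D := by
    refine (norm_sum_le _ _).trans ?_
    push_cast
    rw [Finset.sum_mul]
    refine Finset.sum_le_sum fun k hk => ?_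
    rw [norm_mul, norm_pow, norm_neg, norm_one, one_pow, one_mul]
    simp only [pow_one]
    refine (tr_le h p hp hp₀ k).trans ?_
    rw [← Real.rpow_natCast]
    have : k ≤ 2 * D := by rw [Finset.mem_range] at hk; omega
    have : (k : ℝ) ≤ 2 * D := by exact_mod_cast this
    gcongr
    · linarith
  rw [← h1, h2, div_le_iff₀ hp2] at h3
  linarith

/-- **The trace on the middle cohomology.** -/
theorem trace_dev {n p₀ : ℕ} {b : ℕ → ℕ} {β : ∀ _p k : ℕ, Fin (b k) → ℂ}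
    (h : IsCohomology E (n + r) p₀ b β) (c : Coef N d → ℤ) (p : ℕ) [Fact p.Prime] (hp₀ : p₀ ≤ p) :
    ‖middle E n β c p 1 - ∑ j, β p n j - (-1) ^ n * ((dev E p (red p c) / ((p : ℝ) - 1) : ℝ) : ℂ)‖ ≤
      CE n r b * (p : ℝ) ^ (((n : ℝ) - 1) / 2) := by
  have hp := (Fact.out : p.Prime)
  have hp0 : (0 : ℝ) < p := by exact_mod_cast hp.pos
  have hp1 : (1 : ℝ) ≤ p := by exact_mod_cast hp.one_lt.le
  have hpc : (p : ℂ) ≠ 0 := by exact_mod_cast hp.ne_zero
  set Tr : ℕ → ℂ := fun k => ∑ j, β p k j with hTr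
  have hhl : ∀ k ≤ n + r, Tr (2 * (n + r) - k) = (p : ℂ) ^ (n + r - k) * Tr k := by
    intro k hk
    have := h.lefschetz p hp hp₀ k hk 1 le_rfl
    simp only [pow_one, mul_one] at this
    exact this
  have h1 := h.trace p hp₀ 1 le_rfl
  rw [points_ambient] at h1
  simp only [pow_one] at h1
  -- split
  have h2 : ∑ k ∈ Finset.range (2 * (n + r) + 1), (-1 : ℂ) ^ k * Tr k =
      ∑ k ∈ range (n + 2 * r), (-1) ^ k * Tr k +
        (p : ℂ) ^ r * ∑ k ∈ range (n + 1), (-1) ^ k * ((p : ℂ) ^ (n - k) * Tr k) := by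
    have e1 : 2 * (n + r) + 1 = (n + 2 * r) + (n + 1) := by ring
    rw [e1, Finset.sum_range_add, ← Finset.sum_range_reflect _ (n + 1), Finset.mul_sum]
    congr 1
    refine Finset.sum_congr rfl fun k hk => ?_
    have hk' : k ≤ n := by rw [Finset.mem_range] at hk; omega
    have e2 : n + 2 * r + (n + 1 - 1 - k) = 2 * (n + r) - k := by omega
    rw [e2, hhl k (by omega)]
    have e3 : (-1 : ℂ) ^ (2 * (n + r) - k) = (-1) ^ k := by
      have : (-1 : ℂ) ^ (2 * (n + r) - k) * (-1) ^ k = 1 := by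
        rw [← pow_add, Nat.sub_add_cancel (by omega), pow_mul]
        simp
      have h4 : (-1 : ℂ) ^ k * (-1) ^ k = 1 := by
        rw [← mul_pow]
        simp
      have h5 : ((-1 : ℂ) ^ k) ≠ 0 := pow_ne_zero _ (by norm_num)
      exact mul_right_cancel₀ h5 (this.trans h4.symm)
    have e4 : (p : ℂ) ^ (n + r - k) = (p : ℂ) ^ r * (p : ℂ) ^ (n - k) := by
      rw [← pow_add]
      congr 1
      omega
    rw [e3, e4]
    ring
  have h3 : ((dev E p (red p c) / ((p : ℝ) - 1) : ℝ) : ℂ) =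
      points (member E c) p 1 - (∑ k ∈ range (n + 2 * r), (-1) ^ k * Tr k) / (p : ℂ) ^ r -
        ∑ k ∈ range (n + 1), (-1) ^ k * ((p : ℂ) ^ (n - k) * Tr k) := by
    have h4 : ((dev E p (red p c) / ((p : ℝ) - 1) : ℝ) : ℂ) =
        points (member E c) p 1 - ((((ZZp E p).card / ((p : ℝ) - 1) : ℝ)) : ℂ) / (p : ℂ) ^ r := by
      rw [points_member, dev]
      push_cast
      ring
    rw [h4, h1, h2]
    field_simp
    ring
  have h5 : middle E n β c p 1 - ∑ j, β p n j -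
      (-1) ^ n * ((dev E p (red p c) / ((p : ℝ) - 1) : ℝ) : ℂ) =
      (-1) ^ n * ((∑ k ∈ range (n + 2 * r), (-1) ^ k * Tr k) / (p : ℂ) ^ r -
        ∑ k ∈ range n, (-1) ^ k * Tr k) := by
    rw [h3]
    unfold middle
    simp only [pow_one, mul_one]
    rw [Finset.sum_range_succ _ n]
    have e5 : ∑ k ∈ range n, (-1 : ℂ) ^ k * (1 + (p : ℂ) ^ (n - k)) * ∑ j, β p k j =
        ∑ k ∈ range n, (-1 : ℂ) ^ k * Tr k + ∑ k ∈ range n, (-1 : ℂ) ^ k * ((p : ℂ) ^ (n - k) * Tr k) := by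
      rw [← Finset.sum_add_distrib]
      refine Finset.sum_congr rfl fun k _ => ?_
      ring
    rw [e5]
    have e6 : (-1 : ℂ) ^ n * (-1) ^ n = 1 := by
      rw [← mul_pow]
      simp
    have e7 : Tr n = (-1 : ℂ) ^ n * (-1) ^ n * Tr n := by rw [e6, one_mul]
    have e8 : ∑ j, β p n j = Tr n := rfl
    rw [e8, Nat.sub_self, pow_zero, one_mul]
    linear_combination (-1 : ℂ) * e7
  rw [h5, norm_mul, norm_pow, norm_neg, norm_one, one_pow, one_mul]
  refine (norm_sub_le _ _).trans ?_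
  have hb : ∀ k : ℕ, (k : ℝ) ≤ (n : ℝ) - 1 → ‖(-1 : ℂ) ^ k * Tr k‖ ≤ b k * (p : ℝ) ^ (((n : ℝ) - 1) / 2) := by
    intro k hk
    rw [norm_mul, norm_pow, norm_neg, norm_one, one_pow, one_mul]
    refine (tr_le h p hp hp₀ k).trans ?_
    gcongr
  have hb' : ∀ k : ℕ, (k : ℝ) ≤ (n : ℝ) - 1 + 2 * r → ‖(-1 : ℂ) ^ k * Tr k / (p : ℂ) ^ r‖ ≤
      b k * (p : ℝ) ^ (((n : ℝ) - 1) / 2) := by
    intro k hk
    rw [norm_div, norm_mul, norm_pow, norm_neg, norm_one, one_pow, one_mul, norm_pow,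
      Complex.norm_natCast]
    have h6 := tr_le h p hp hp₀ k
    have h7 : (p : ℝ) ^ ((k : ℝ) / 2) ≤ (p : ℝ) ^ (((n : ℝ) - 1) / 2) * (p : ℝ) ^ r := by
      rw [← Real.rpow_natCast (p : ℝ) r, ← Real.rpow_add hp0]
      apply Real.rpow_le_rpow_of_exponent_le hp1
      linarith
    rw [div_le_iff₀ (by positivity)]
    calc _ ≤ b k * (p : ℝ) ^ ((k : ℝ) / 2) := h6
      _ ≤ b k * ((p : ℝ) ^ (((n : ℝ) - 1) / 2) * (p : ℝ) ^ r) := by gcongr
      _ = _ := by ring
  have g1 : ‖(∑ k ∈ range (n + 2 * r), (-1) ^ k * Tr k) / (p : ℂ) ^ r‖ ≤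
      (∑ k ∈ range (n + 2 * r), (b k : ℝ)) * (p : ℝ) ^ (((n : ℝ) - 1) / 2) := by
    rw [Finset.sum_div, Finset.sum_mul]
    refine (norm_sum_le _ _).trans (Finset.sum_le_sum fun k hk => hb' k ?_)
    have : k + 1 ≤ n + 2 * r := by rw [Finset.mem_range] at hk; omega
    have : (k : ℝ) + 1 ≤ n + 2 * r := by exact_mod_cast this
    linarith
  have g2 : ‖∑ k ∈ range n, (-1 : ℂ) ^ k * Tr k‖ ≤
      (∑ k ∈ range n, (b k : ℝ)) * (p : ℝ) ^ (((n : ℝ) - 1) / 2) := by
    rw [Finset.sum_mul]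
    refine (norm_sum_le _ _).trans (Finset.sum_le_sum fun k hk => hb k ?_)
    have : k + 1 ≤ n := by rw [Finset.mem_range] at hk; omega
    have : (k : ℝ) + 1 ≤ n := by exact_mod_cast this
    linarith
  unfold CE
  push_cast
  linarith

end

end Pool.Agent.L0h50.NL
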