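import Mathlib
import Pool.Agent.L0h50.NL.Link
import Pool.Agent.L0h50.NL.Poly

/-!
# The L-functions of the complete intersections in a variety near the whole line, in mean square
-/

set_option autoImplicit false

namespace Pool.Agent.L0h50.NL

open Finset Pool.Agent.Y722.HS Pool.Agent.Y722.LS Pool.Agent.N534.TL

section
variable {N r : ℕ} {d : Fin r → ℕ} {E : Set (MvPolynomial (Fin (N + 1)) ℤ)}

open Classical in
/-- The normalised deviation. -/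
noncomputable def NN (E : Set (MvPolynomial (Fin (N + 1)) ℤ)) (n p₀ p : ℕ) (c : Coef N d → ZMod p) : ℝ :=
  if h : p.Prime ∧ p₀ ≤ p then
    haveI := Fact.mk h.1
    dev E p c / (((p : ℝ) - 1) * (p : ℝ) ^ ((n : ℝ) / 2 + 1))
  else 0

theorem NN_of (n p₀ p : ℕ) [hF : Fact p.Prime] (h : p₀ ≤ p) (c : Coef N d → ZMod p) :
    NN E n p₀ p c = dev E p c / (((p : ℝ) - 1) * (p : ℝ) ^ ((n : ℝ) / 2 + 1)) := by
  rw [NN, dif_pos ⟨hF.out, h⟩]

theorem NN_not (n p₀ p : ℕ) (h : ¬ p₀ ≤ p) (c : Coef N d → ZMod p) : NN E n p₀ p c = 0 := by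
  rw [NN, dif_neg (fun h' => h h'.2)]

theorem fam (hd : ∀ j, 1 ≤ d j) (n p₀ : ℕ) (P : MvPolynomial (Coef N d) ℤ) (c0 : Coef N d → ℤ)
    (hP : MvPolynomial.eval c0 P ≠ 0) (CZ : ℝ) (hCZ : 0 ≤ CZ)
    (hZ : ∀ (p : ℕ) [Fact p.Prime], p₀ ≤ p →
      ((ZZp E p).card : ℝ) ≤ CZ * (((p : ℝ) - 1) * (p : ℝ) ^ (n + r))) :
    Fam (1 + 2 * CZ + p₀ + P.totalDegree + |(MvPolynomial.eval c0 P : ℝ)|)
      (NN (d := d) E n p₀) (BB P p₀) := by
  classical
  set A : ℝ := 1 + 2 * CZ + p₀ + P.totalDegree + |(MvPolynomial.eval c0 P : ℝ)| with hA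
  have hp00 : (0 : ℝ) ≤ p₀ := by positivity
  have hdeg0 : (0 : ℝ) ≤ P.totalDegree := by positivity
  have hev0 : (0 : ℝ) ≤ |(MvPolynomial.eval c0 P : ℝ)| := abs_nonneg _
  refine ⟨by rw [hA]; linarith, ?_, ?_, ?_, ?_, ?_⟩
  · intro p hpF
    have hp := hpF.out
    have hp0 : (0 : ℝ) < p := by exact_mod_cast hp.pos
    have hp2 : (2 : ℝ) ≤ p := by exact_mod_cast hp.two_le
    have hp1 : (0 : ℝ) < (p : ℝ) - 1 := by linarith
    by_cases hlt : p₀ ≤ p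
    · have h1 : (fun c : Coef N d → ZMod p => NN E n p₀ p c ^ 2) =
          fun c => (1 / (((p : ℝ) - 1) ^ 2 * (p : ℝ) ^ (n + 2))) * dev E p c ^ 2 := by
        funext c
        rw [NN_of n p₀ p hlt, div_pow, mul_pow]
        have h2 : ((p : ℝ) ^ ((n : ℝ) / 2 + 1)) ^ 2 = (p : ℝ) ^ (n + 2) := by
          rw [← Real.rpow_natCast, ← Real.rpow_mul hp0.le, ← Real.rpow_natCast]
          congr 1
          push_cast
          ring
        rw [h2]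
        ring
      rw [h1, EM_mul, EM]
      have hM : (0 : ℝ) < (p : ℝ) ^ Fintype.card (Coef N d) := by positivity
      have h2 : (∑ c : Coef N d → ZMod p, dev E p c ^ 2) / (p : ℝ) ^ Fintype.card (Coef N d) ≤
          (ZZp E p).card * p / (p : ℝ) ^ r := by
        rw [div_le_iff₀ hM]
        exact sum_dev_sq hd
      have h3 := hZ p hlt
      calc _ ≤ 1 / (((p : ℝ) - 1) ^ 2 * (p : ℝ) ^ (n + 2)) * ((ZZp E p).card * p / (p : ℝ) ^ r) := by
            gcongr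
        _ ≤ 1 / (((p : ℝ) - 1) ^ 2 * (p : ℝ) ^ (n + 2)) *
            ((CZ * (((p : ℝ) - 1) * (p : ℝ) ^ (n + r))) * p / (p : ℝ) ^ r) := by gcongr
        _ = CZ / (((p : ℝ) - 1) * p) := by
            rw [pow_add, pow_add]
            field_simp
        _ ≤ CZ / ((p : ℝ) / 2 * p) := by
            gcongr
            linarith
        _ = 2 * CZ / (p : ℝ) ^ 2 := by field_simp
        _ ≤ _ := by
            gcongr
            linarith
    · have h1 : (fun c : Coef N d → ZMod p => NN E n p₀ p c ^ 2) = fun _ => 0 := by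
        funext c
        rw [NN_not n p₀ p hlt]
        norm_num
      rw [h1, EM_const]
      have : 0 ≤ A := by linarith
      positivity
  · intro p hpF
    have hp := hpF.out
    have hp0 : (0 : ℝ) < p := by exact_mod_cast hp.pos
    have hA0 : 0 ≤ A := by linarith
    by_cases hlt : p₀ ≤ p
    · have h1 : (fun c : Coef N d → ZMod p => NN E n p₀ p c) =
          fun c => (1 / (((p : ℝ) - 1) * (p : ℝ) ^ ((n : ℝ) / 2 + 1))) * dev E p c := by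
        funext c
        rw [NN_of n p₀ p hlt]
        ring
      rw [h1, EM_mul, EM, sum_dev hd]
      simp only [zero_div, mul_zero, abs_zero]
      positivity
    · have h1 : (fun c : Coef N d → ZMod p => NN E n p₀ p c) = fun _ => 0 := by
        funext c
        rw [NN_not n p₀ p hlt]
      rw [h1, EM_const, abs_zero]
      positivity
  · intro p c
    unfold BB
    split_ifs <;> norm_num
  · intro p c
    unfold BB
    split_ifs <;> norm_num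
  · intro p hpF
    have hp := hpF.out
    have hp0 : (0 : ℝ) < p := by exact_mod_cast hp.pos
    have hle1 : EM p (fun c : Coef N d → ZMod p => BB P p₀ p c) ≤ 1 := by
      rw [← EM_const (ι := Coef N d) p 1]
      apply EM_mono
      intro c
      unfold BB
      split_ifs <;> norm_num
    have hsmall : (p : ℝ) ≤ A → EM p (fun c : Coef N d → ZMod p => BB P p₀ p c) ≤ A / p := by
      intro h
      refine hle1.trans ?_
      rw [le_div_iff₀ hp0, one_mul]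
      exact h
    by_cases hlt : p < p₀
    · apply hsmall
      have : (p : ℝ) ≤ p₀ := by exact_mod_cast hlt.le
      linarith
    · by_cases hdvd : (p : ℤ) ∣ MvPolynomial.eval c0 P
      · apply hsmall
        have h1 : (p : ℤ) ≤ |MvPolynomial.eval c0 P| :=
          Int.le_of_dvd (abs_pos.mpr hP) ((dvd_abs _ _).mpr hdvd)
        have h2 : (p : ℝ) ≤ |(MvPolynomial.eval c0 P : ℝ)| := by exact_mod_cast h1
        linarith
      · have h1 := card_zeros P c0 p hdvd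
        have h2 : ∑ c : Coef N d → ZMod p, BB P p₀ p c = ((Nat.card {c : Coef N d → ZMod p //
            MvPolynomial.eval₂ (Int.castRingHom (ZMod p)) c P = 0} : ℕ) : ℝ) := by
          rw [Nat.card_eq_fintype_card, Fintype.card_subtype]
          simp [BB, hlt]
        have hM : (0 : ℝ) < (p : ℝ) ^ Fintype.card (Coef N d) := by positivity
        unfold EM
        rw [h2, div_le_div_iff₀ hM hp0]
        refine h1.trans ?_
        gcongr
        linarith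

/-- The weights. -/
noncomputable def tt {ρ : ℕ} (n : ℕ) (θ : ℕ → Fin ρ → ℂ) (p : ℕ) : ℂ :=
  (-1) ^ n * (∑ i, θ p i) / ((ρ : ℂ) + 1)

theorem norm_theta {ρ : ℕ} {θ : ℕ → Fin ρ → ℂ} (hθ : ∀ p i, ‖θ p i‖ ≤ 1) (p : ℕ) :
    ‖∑ i, θ p i‖ ≤ ρ := by
  refine (norm_sum_le _ _).trans ((Finset.sum_le_sum fun i _ => hθ p i).trans ?_)
  simp

theorem norm_tt {ρ : ℕ} (n : ℕ) {θ : ℕ → Fin ρ → ℂ} (hθ : ∀ p i, ‖θ p i‖ ≤ 1) (p : ℕ) :
    ‖tt n θ p‖ ≤ 1 := by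
  unfold tt
  have h1 : ‖((ρ : ℂ) + 1)‖ = (ρ : ℝ) + 1 := by
    have : ((ρ : ℂ) + 1) = (((ρ : ℝ) + 1 : ℝ) : ℂ) := by push_cast; rfl
    rw [this, Complex.norm_real, Real.norm_of_nonneg (by positivity)]
  rw [norm_div, norm_mul, norm_pow, norm_neg, norm_one, one_pow, one_mul, h1,
    div_le_one (by positivity)]
  have := norm_theta hθ p
  linarith

theorem dvd_iff (P : MvPolynomial (Coef N d) ℤ) (p : ℕ) (c : Coef N d → ℤ) :
    MvPolynomial.eval₂ (Int.castRingHom (ZMod p)) (red p c) P = 0 ↔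
      (p : ℤ) ∣ MvPolynomial.eval c P := by
  have h2 : MvPolynomial.eval₂ (Int.castRingHom (ZMod p)) (red p c) P =
      (Int.castRingHom (ZMod p)) (MvPolynomial.eval c P) := by
    have := MvPolynomial.eval₂_comp_left (Int.castRingHom (ZMod p)) (RingHom.id ℤ) c P
    rw [MvPolynomial.eval₂_id] at this
    rw [this]
    rfl
  rw [h2]
  exact ZMod.intCast_zmod_eq_zero_iff_dvd _ p

theorem cpow_ss (n p : ℕ) (hp : p.Prime) (ε : ℝ) :
    (p : ℂ) ^ (-ss (n + 1) ε) = (((p : ℝ) ^ (-ε) / (p : ℝ) ^ ((n : ℝ) / 2 + 1) : ℝ) : ℂ) := by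
  have hp0 : (0 : ℝ) < p := by exact_mod_cast hp.pos
  have h1 : (p : ℝ) ^ (-ε) / (p : ℝ) ^ ((n : ℝ) / 2 + 1) = (p : ℝ) ^ (-((n : ℝ) / 2 + 1 + ε)) := by
    rw [show -((n : ℝ) / 2 + 1 + ε) = -ε + -((n : ℝ) / 2 + 1) by ring, Real.rpow_add hp0 (-ε),
      Real.rpow_neg hp0.le ((n : ℝ) / 2 + 1), div_eq_mul_inv]
  rw [h1, Complex.ofReal_cpow hp0.le]
  congr 1
  unfold ss
  push_cast
  ring

/-- One prime. -/
theorem term {n p₀ : ℕ} {b : ℕ → ℕ} {β : ∀ _p k : ℕ, Fin (b k) → ℂ} (h : IsCohomology E (n + r) p₀ b β)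
    {P : MvPolynomial (Coef N d) ℤ} {ρ : ℕ} {θ : ℕ → Fin ρ → ℂ} (hθ : ∀ p i, ‖θ p i‖ ≤ 1)
    {B B' : ℕ} {c : Coef N d → ℤ} {α : ℕ → Fin B → ℂ} {γ : ℕ → Fin B' → ℂ}
    (hα : IsMember E n p₀ β P θ c α) (hγ : IsAmbient n p₀ β θ γ) (p : ℕ) [Fact p.Prime]
    (ε τ : ℝ) (hε : 0 ≤ ε) :
    ‖((∑ j, twist α τ p j) * (p : ℂ) ^ (-ss (n + 1) ε) -
        (∑ j, twist γ τ p j) * (p : ℂ) ^ (-ss (n + 1) ε)) -
      (ρ + 1) * (tt n θ p * (p : ℂ) ^ (-((ε : ℂ) + τ * Complex.I)) * (NN E n p₀ p (red p c) : ℂ))‖ ≤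
      ρ * CE n r b * (1 / (p : ℝ) ^ ((3 : ℝ) / 2)) +
        (ρ + 1) * bb (NN E n p₀) (BB P p₀) (B + B') p (red p c) := by
  classical
  have hp := (Fact.out : p.Prime)
  have hp0 : (0 : ℝ) < p := by exact_mod_cast hp.pos
  have hp1 : (1 : ℝ) ≤ p := by exact_mod_cast hp.one_lt.le
  have hpc : (p : ℂ) ≠ 0 := by exact_mod_cast hp.ne_zero
  have hpε : (p : ℝ) ^ (-ε) ≤ 1 := Real.rpow_le_one_of_one_le_of_nonpos hp1 (by linarith)
  have hpε0 : 0 < (p : ℝ) ^ (-ε) := by positivity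
  set s : ℂ := (p : ℂ) ^ (-((τ : ℂ) * Complex.I)) with hs
  have hs1 : ‖s‖ = 1 := norm_pi p hp τ
  have hsum : ∀ {m : ℕ} (α : ℕ → Fin m → ℂ), (∑ j, twist α τ p j) = (∑ j, α p j) * s := by
    intro m α
    rw [Finset.sum_mul]
    rfl
  have hu : (p : ℂ) ^ (-((ε : ℂ) + τ * Complex.I)) = (((p : ℝ) ^ (-ε) : ℝ) : ℂ) * s := by
    rw [Complex.ofReal_cpow hp0.le, neg_add, Complex.cpow_add _ _ hpc]
    push_cast
    ring
  have hρ : ((ρ : ℂ) + 1) ≠ 0 := by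
    have : ((ρ : ℂ) + 1) = ((ρ + 1 : ℕ) : ℂ) := by push_cast; rfl
    rw [this]
    exact_mod_cast Nat.succ_ne_zero ρ
  set θ1 : ℂ := ∑ i, θ p i with hθ1
  have hθn : ‖θ1‖ ≤ ρ := norm_theta hθ p
  have htt : ((ρ : ℂ) + 1) * tt n θ p = (-1) ^ n * θ1 := by
    unfold tt
    rw [← hθ1]
    field_simp
  rw [hsum, hsum, cpow_ss n p hp, hu]
  set w : ℝ := (p : ℝ) ^ (-ε) / (p : ℝ) ^ ((n : ℝ) / 2 + 1) with hw
  have hw0 : 0 < w := by positivity
  have hw1 : w ≤ 1 / (p : ℝ) ^ ((n : ℝ) / 2 + 1) := by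
    rw [hw]
    gcongr
  by_cases hb : p < p₀ ∨ MvPolynomial.eval₂ (Int.castRingHom (ZMod p)) (red p c) P = 0
  · have h1 : bb (NN E n p₀) (BB P p₀) (B + B') p (red p c) =
        |NN E n p₀ p (red p c)| + (B + B') / p := by
      unfold bb BB; rw [if_pos hb, one_mul]
    have hbd : ∀ {m : ℕ} (α : ℕ → Fin m → ℂ), (∀ j, ‖α p j‖ ≤ (p : ℝ) ^ ((n : ℝ) / 2)) →
        ‖(∑ j, α p j) * s * (w : ℂ)‖ ≤ m / p := by
      intro m α hα
      rw [norm_mul, norm_mul, hs1, mul_one, Complex.norm_real, Real.norm_of_nonneg hw0.le]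
      have h3 : ‖∑ j, α p j‖ ≤ m * (p : ℝ) ^ ((n : ℝ) / 2) := by
        refine (norm_sum_le _ _).trans ?_
        refine (Finset.sum_le_sum fun j _ => hα j).trans ?_
        rw [Finset.sum_const, nsmul_eq_mul, Finset.card_univ, Fintype.card_fin]
      calc _ ≤ m * (p : ℝ) ^ ((n : ℝ) / 2) * (1 / (p : ℝ) ^ ((n : ℝ) / 2 + 1)) := by gcongr
        _ = _ := by
          rw [Real.rpow_add hp0, Real.rpow_one]
          field_simp
    have h2 := hbd α (hα.bound p hp)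
    have h3 := hbd γ (hγ.bound p hp)
    have h4 : ‖((ρ : ℂ) + 1) * (tt n θ p * ((((p : ℝ) ^ (-ε) : ℝ) : ℂ) * s) *
        (NN E n p₀ p (red p c) : ℂ))‖ ≤ ρ * |NN E n p₀ p (red p c)| := by
      have e1 : ((ρ : ℂ) + 1) * (tt n θ p * ((((p : ℝ) ^ (-ε) : ℝ) : ℂ) * s) *
          (NN E n p₀ p (red p c) : ℂ)) = ((-1) ^ n * θ1) * ((((p : ℝ) ^ (-ε) : ℝ) : ℂ) * s) *
          (NN E n p₀ p (red p c) : ℂ) := by
        rw [← htt]
        ring
      rw [e1, norm_mul, norm_mul, norm_mul, norm_mul, hs1, norm_pow, norm_neg, norm_one, one_pow,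
        one_mul, mul_one, Complex.norm_real, Complex.norm_real, Real.norm_of_nonneg hpε0.le,
        Real.norm_eq_abs]
      calc _ ≤ (ρ : ℝ) * 1 * |NN E n p₀ p (red p c)| := by gcongr
        _ = _ := by ring
    have h5 := norm_sub_le ((∑ j, α p j) * s * (w : ℂ) - (∑ j, γ p j) * s * (w : ℂ))
      (((ρ : ℂ) + 1) * (tt n θ p * ((((p : ℝ) ^ (-ε) : ℝ) : ℂ) * s) * (NN E n p₀ p (red p c) : ℂ)))
    have h6 := norm_sub_le ((∑ j, α p j) * s * (w : ℂ)) ((∑ j, γ p j) * s * (w : ℂ))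
    rw [h1]
    have h7 : 0 ≤ ρ * CE n r b * (1 / (p : ℝ) ^ ((3 : ℝ) / 2)) := by positivity
    have h8 : 0 ≤ |NN E n p₀ p (red p c)| := abs_nonneg _
    have h9 : ((B : ℝ) + B') / p = B / p + B' / p := add_div _ _ _
    have h10 : 0 ≤ (ρ : ℝ) * (((B : ℝ) + B') / p) := by positivity
    have h11 : ((ρ : ℝ) + 1) * (|NN E n p₀ p (red p c)| + ((B : ℝ) + B') / p) =
        ρ * |NN E n p₀ p (red p c)| + |NN E n p₀ p (red p c)| + ρ * (((B : ℝ) + B') / p) +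
          ((B : ℝ) + B') / p := by ring
    rw [h11]
    linarith
  · have h1 : bb (NN E n p₀) (BB P p₀) (B + B') p (red p c) = 0 := by
      unfold bb BB; rw [if_neg hb, zero_mul]
    push Not at hb
    obtain ⟨hb1, hb2⟩ := hb
    rw [Ne, dvd_iff] at hb2
    have e1 := hα.power p hb1 hb2 1 le_rfl
    have e2 := hγ.power p hp hb1 1 le_rfl
    have e3 := trace_dev h c p hb1
    simp only [pow_one] at e1 e2
    rw [← hθ1] at e1 e2
    set q : ℝ := (p : ℝ) ^ ((n : ℝ) / 2 + 1) with hq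
    have hq0 : 0 < q := by positivity
    have e4 : (∑ j, α p j) * s * (w : ℂ) - (∑ j, γ p j) * s * (w : ℂ) -
        (ρ + 1) * (tt n θ p * ((((p : ℝ) ^ (-ε) : ℝ) : ℂ) * s) * (NN E n p₀ p (red p c) : ℂ)) =
        (middle E n β c p 1 - ∑ j, β p n j - (-1) ^ n * ((dev E p (red p c) / ((p : ℝ) - 1) : ℝ) : ℂ)) *
          (θ1 * s * (w : ℂ)) := by
      have e5 : (ρ + 1) * (tt n θ p * ((((p : ℝ) ^ (-ε) : ℝ) : ℂ) * s) * (NN E n p₀ p (red p c) : ℂ)) =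
          ((-1) ^ n * θ1) * ((((p : ℝ) ^ (-ε) : ℝ) : ℂ) * s) * (NN E n p₀ p (red p c) : ℂ) := by
        rw [← htt]
        ring
      have e6 : (((p : ℝ) ^ (-ε) : ℝ) : ℂ) * (NN E n p₀ p (red p c) : ℂ) =
          (w : ℂ) * ((dev E p (red p c) / ((p : ℝ) - 1) : ℝ) : ℂ) := by
        rw [NN_of n p₀ p hb1, ← Complex.ofReal_mul, ← Complex.ofReal_mul, hw]
        congr 1
        rw [← hq]
        have hp2 : (p : ℝ) - 1 ≠ 0 := by
          have : (1 : ℝ) < p := by exact_mod_cast hp.one_lt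
          linarith
        field_simp
      rw [e5, e1, e2]
      linear_combination (-(-1 : ℂ) ^ n * θ1 * s) * e6
    rw [e4, h1, mul_zero, add_zero, norm_mul, norm_mul, norm_mul, hs1, mul_one, Complex.norm_real,
      Real.norm_of_nonneg hw0.le]
    calc _ ≤ (CE n r b * (p : ℝ) ^ (((n : ℝ) - 1) / 2)) * (ρ * (1 / q)) := by gcongr
      _ = _ := by
        have e7 : q = (p : ℝ) ^ (((n : ℝ) - 1) / 2) * (p : ℝ) ^ ((3 : ℝ) / 2) := by
          rw [hq, ← Real.rpow_add hp0]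
          congr 1
          ring
        rw [e7]
        field_simp

/-- The L-function of one member. -/
theorem one {n p₀ : ℕ} {b : ℕ → ℕ} {β : ∀ _p k : ℕ, Fin (b k) → ℂ} (h : IsCohomology E (n + r) p₀ b β)
    {P : MvPolynomial (Coef N d) ℤ} {ρ : ℕ} {θ : ℕ → Fin ρ → ℂ} (hθ : ∀ p i, ‖θ p i‖ ≤ 1)
    {B B' : ℕ} {c : Coef N d → ℤ} {α : ℕ → Fin B → ℂ} {γ : ℕ → Fin B' → ℂ}
    (hα : IsMember E n p₀ β P θ c α) (hγ : IsAmbient n p₀ β θ γ) (y : ℕ) (hy : 1 ≤ y)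
    (ε τ : ℝ) (hε : 0 < ε) (hε1 : ε ≤ 1) (hyε : 1 ≤ 4 * (ε * Real.log (y + 1))) :
    |Real.log ‖LP α (ss (n + 1) ε + τ * Complex.I)‖ - Real.log ‖LP γ (ss (n + 1) ε + τ * Complex.I)‖| ≤
      (ρ + 1) * ‖ZT (NN E n p₀) (tt n θ) y c (ε + τ * Complex.I)‖ +
        (ρ + 1) * ∑ p ∈ PR y, bb (NN E n p₀) (BB P p₀) (B + B') p (red p c) +
        (ρ * CE n r b * SS + (B + B') * (SS + 128)) := by
  have hbound : ∀ {m : ℕ} (α : ℕ → Fin m → ℂ),
      (∀ p : ℕ, p.Prime → ∀ j, ‖α p j‖ ≤ (p : ℝ) ^ ((n : ℝ) / 2)) → ∀ p : ℕ, p.Prime → ∀ j,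
      ‖twist α τ p j‖ ≤ (p : ℝ) ^ ((((n + 1 : ℕ) : ℝ) - 1) / 2) := by
    intro m α hα p hp j
    have e : (((n + 1 : ℕ) : ℝ) - 1) / 2 = (n : ℝ) / 2 := by push_cast; ring
    rw [e, twist_norm α τ p hp]
    exact hα p hp j
  have h1 := log_LP (n := n + 1) hε hε1 (hbound α hα.bound) y hy
  have h2 := log_LP (n := n + 1) hε hε1 (hbound γ hγ.bound) y hy
  rw [LP_twist] at h1 h2
  have h16 : 16 / (ε * Real.log (y + 1)) ≤ 64 := by
    rw [div_le_iff₀ (by linarith)]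
    linarith
  have h3 : 2 * (B : ℝ) * (16 / (ε * Real.log (y + 1))) ≤ 128 * B := by
    calc _ ≤ 2 * (B : ℝ) * 64 := by gcongr
      _ = _ := by ring
  have h4 : 2 * (B' : ℝ) * (16 / (ε * Real.log (y + 1))) ≤ 128 * B' := by
    calc _ ≤ 2 * (B' : ℝ) * 64 := by gcongr
      _ = _ := by ring
  have h5 : ‖∑ p ∈ PR y, ((∑ j, twist α τ p j) * (p : ℂ) ^ (-ss (n + 1) ε) -
        (∑ j, twist γ τ p j) * (p : ℂ) ^ (-ss (n + 1) ε)) -
      (ρ + 1) * ZT (NN E n p₀) (tt n θ) y c (ε + τ * Complex.I)‖ ≤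
      ρ * CE n r b * SS + (ρ + 1) * ∑ p ∈ PR y, bb (NN E n p₀) (BB P p₀) (B + B') p (red p c) := by
    unfold ZT
    rw [Finset.mul_sum, ← Finset.sum_sub_distrib]
    refine (norm_sum_le _ _).trans ?_
    have h6 : ∀ p ∈ PR y, _ := fun p hp => by
      have := Fact.mk (mem_PR.mp hp).2
      exact term h hθ hα hγ p ε τ hε.le
    refine (Finset.sum_le_sum h6).trans ?_
    rw [Finset.sum_add_distrib, ← Finset.mul_sum, ← Finset.mul_sum]
    gcongr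
    exact sum_le_SS _
  have h6 : |∑ p ∈ PR y, ((∑ j, twist α τ p j) * (p : ℂ) ^ (-ss (n + 1) ε)).re -
      ∑ p ∈ PR y, ((∑ j, twist γ τ p j) * (p : ℂ) ^ (-ss (n + 1) ε)).re| ≤
      (ρ + 1) * ‖ZT (NN E n p₀) (tt n θ) y c (ε + τ * Complex.I)‖ + (ρ * CE n r b * SS +
        (ρ + 1) * ∑ p ∈ PR y, bb (NN E n p₀) (BB P p₀) (B + B') p (red p c)) := by
    have e1 : ∑ p ∈ PR y, ((∑ j, twist α τ p j) * (p : ℂ) ^ (-ss (n + 1) ε)).re -
      ∑ p ∈ PR y, ((∑ j, twist γ τ p j) * (p : ℂ) ^ (-ss (n + 1) ε)).re =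
      (∑ p ∈ PR y, ((∑ j, twist α τ p j) * (p : ℂ) ^ (-ss (n + 1) ε) -
        (∑ j, twist γ τ p j) * (p : ℂ) ^ (-ss (n + 1) ε))).re := by
      rw [Complex.re_sum, ← Finset.sum_sub_distrib]
      exact Finset.sum_congr rfl fun p _ => (Complex.sub_re _ _).symm
    rw [e1]
    refine (Complex.abs_re_le_norm _).trans ?_
    have e2 := norm_add_le (∑ p ∈ PR y, ((∑ j, twist α τ p j) * (p : ℂ) ^ (-ss (n + 1) ε) -
        (∑ j, twist γ τ p j) * (p : ℂ) ^ (-ss (n + 1) ε)) -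
      (ρ + 1) * ZT (NN E n p₀) (tt n θ) y c (ε + τ * Complex.I))
      ((ρ + 1) * ZT (NN E n p₀) (tt n θ) y c (ε + τ * Complex.I))
    rw [sub_add_cancel] at e2
    have e3 : ‖((ρ : ℂ) + 1) * ZT (NN E n p₀) (tt n θ) y c (ε + τ * Complex.I)‖ =
        (ρ + 1) * ‖ZT (NN E n p₀) (tt n θ) y c (ε + τ * Complex.I)‖ := by
      rw [norm_mul]
      congr 1
      have : ((ρ : ℂ) + 1) = (((ρ : ℝ) + 1 : ℝ) : ℂ) := by push_cast; rfl
      rw [this, Complex.norm_real, Real.norm_of_nonneg (by positivity)]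
    rw [e3] at e2
    linarith
  set L := Real.log ‖LP α (ss (n + 1) ε + τ * Complex.I)‖
  set L' := Real.log ‖LP γ (ss (n + 1) ε + τ * Complex.I)‖
  set S1 := ∑ p ∈ PR y, ((∑ j, twist α τ p j) * (p : ℂ) ^ (-ss (n + 1) ε)).re
  set S2 := ∑ p ∈ PR y, ((∑ j, twist γ τ p j) * (p : ℂ) ^ (-ss (n + 1) ε)).re
  have e0 : L - L' = (L - S1) + (S1 - S2) - (L' - S2) := by ring
  rw [e0]
  have i1 := abs_sub ((L - S1) + (S1 - S2)) (L' - S2)
  have i2 := abs_add_le (L - S1) (S1 - S2)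
  linarith

/-- **The majorant.** -/
theorem majorant (N r : ℕ) (d : Fin r → ℕ) (hd : ∀ j, 1 ≤ d j) (E : Set (MvPolynomial (Fin (N + 1)) ℤ))
    (n p₀ : ℕ) (b : ℕ → ℕ) (β : ∀ _p k : ℕ, Fin (b k) → ℂ) (h : IsCohomology E (n + r) p₀ b β)
    (P : MvPolynomial (Coef N d) ℤ) (hP : P ≠ 0) (ρ B B' : ℕ) :
    ∃ C : ℝ, 0 < C ∧ ∀ (θ : ℕ → Fin ρ → ℂ) (γ : ℕ → Fin B' → ℂ), (∀ p i, ‖θ p i‖ ≤ 1) →
      IsAmbient n p₀ β θ γ → ∀ H : ℕ, 2 ≤ H → ∀ T : ℝ, 0 ≤ T → ∃ M : (Coef N d → ℤ) → ℝ,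
      (∀ c, 0 ≤ M c) ∧ EB H M ≤ C * (1 + T) ∧
      ∀ (c : Coef N d → ℤ) (α : ℕ → Fin B → ℂ) (ε τ : ℝ), IsMember E n p₀ β P θ c α →
        1 / Real.log H ≤ ε → ε ≤ 1 → |τ| ≤ T →
        (Real.log ‖LP α (n / 2 + 1 + ε + τ * Complex.I)‖ -
          Real.log ‖LP γ (n / 2 + 1 + ε + τ * Complex.I)‖) ^ 2 ≤ M c := by
  obtain ⟨c0, hc0⟩ : ∃ c0 : Coef N d → ℤ, MvPolynomial.eval c0 P ≠ 0 := by
    by_contra hcon
    push Not at hcon
    exact hP (MvPolynomial.funext fun c => by rw [hcon c, map_zero])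
  set CZ : ℝ := ((∑ k ∈ range (2 * (n + r) + 1), b k : ℕ) : ℝ) with hCZ
  have hCZ0 : 0 ≤ CZ := by rw [hCZ]; positivity
  have hfam := fam (E := E) hd n p₀ P c0 hc0 CZ hCZ0 (fun p _ hp => card_le h p hp)
  set A : ℝ := 1 + 2 * CZ + p₀ + P.totalDegree + |(MvPolynomial.eval c0 P : ℝ)| with hA
  have hA1 := hfam.A0
  set bt : ℝ := (B : ℝ) + B' with hbt
  have hbt0 : 0 ≤ bt := by positivity
  set K : ℝ := ρ * CE n r b * SS + (B + B') * (SS + 128) with hK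
  have hSS := SS_nonneg
  have hK0 : 0 ≤ K := by positivity
  have hK1 : 0 ≤ K1 (Coef N d) A := by
    unfold K1
    positivity
  have hK4 : 0 ≤ K4 (Coef N d) A bt :=
    le_trans (by unfold EB; positivity) (hfam.EB_bb_sq hbt0 0 0 (by norm_num))
  refine ⟨3 * (ρ + 1) ^ 2 * (11 * (4 * Real.pi * K1 (Coef N d) A)) + 3 * (ρ + 1) ^ 2 * K4 (Coef N d) A bt +
    3 * K ^ 2 + 1, by positivity, ?_⟩
  intro θ γ hθ hγ H hH T hT
  obtain ⟨y, hy1, hy4, hyl⟩ := exists_y H hH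
  have hlogH : 0 < Real.log H := Real.log_pos (by exact_mod_cast (by omega : 1 < H))
  set k : ℕ := ⌈4 * T + 1⌉₊ with hk
  have hk1 : 4 * T + 1 ≤ k := Nat.le_ceil _
  have hk2 : (k : ℝ) < 4 * T + 2 := by
    have := Nat.ceil_lt_add_one (a := 4 * T + 1) (by positivity)
    linarith
  refine ⟨fun c => 3 * (ρ + 1) ^ 2 * G3 (NN E n p₀) (tt n θ) y k c +
    3 * (ρ + 1) ^ 2 * (∑ p ∈ PR y, bb (NN E n p₀) (BB P p₀) bt p (red p c)) ^ 2 + 3 * K ^ 2, ?_, ?_, ?_⟩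
  · intro c
    have := G3_nonneg (N := NN (d := d) E n p₀) (tt n θ) y k c
    positivity
  · rw [EB_add, EB_add, EB_const, Pool.Agent.Y722.HS.EB_mul, Pool.Agent.Y722.HS.EB_mul]
    have e1 := EB_G3 hfam (norm_tt n hθ) H y k hy4
    have e2 := hfam.EB_bb_sq hbt0 H y hy4
    have hpi := Real.pi_pos
    have e3 : (2 * (k : ℝ) + 1) * (4 * Real.pi * K1 (Coef N d) A) ≤
        (11 * (1 + T)) * (4 * Real.pi * K1 (Coef N d) A) := by
      apply mul_le_mul_of_nonneg_right _ (by positivity)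
      linarith
    have e4 : K4 (Coef N d) A bt ≤ K4 (Coef N d) A bt * (1 + T) :=
      le_mul_of_one_le_right (by positivity) (by linarith)
    have e5 : 3 * K ^ 2 ≤ 3 * K ^ 2 * (1 + T) := le_mul_of_one_le_right (by positivity) (by linarith)
    have e6 : (3 * ((ρ : ℝ) + 1) ^ 2) * EB H (fun c : Coef N d → ℤ => G3 (NN E n p₀) (tt n θ) y k c) ≤
        (3 * ((ρ : ℝ) + 1) ^ 2) * ((11 * (1 + T)) * (4 * Real.pi * K1 (Coef N d) A)) := by
      apply mul_le_mul_of_nonneg_left (e1.trans e3) (by positivity)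
    have e7 : (3 * ((ρ : ℝ) + 1) ^ 2) * EB H (fun c : Coef N d → ℤ =>
        (∑ p ∈ PR y, bb (NN E n p₀) (BB P p₀) bt p (red p c)) ^ 2) ≤
        (3 * ((ρ : ℝ) + 1) ^ 2) * (K4 (Coef N d) A bt * (1 + T)) := by
      apply mul_le_mul_of_nonneg_left (e2.trans e4) (by positivity)
    have e8 : (0 : ℝ) ≤ 1 + T := by linarith
    calc _ ≤ (3 * ((ρ : ℝ) + 1) ^ 2) * ((11 * (1 + T)) * (4 * Real.pi * K1 (Coef N d) A)) +
          (3 * ((ρ : ℝ) + 1) ^ 2) * (K4 (Coef N d) A bt * (1 + T)) + 3 * K ^ 2 * (1 + T) :=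
          add_le_add (add_le_add e6 e7) e5
      _ ≤ _ := by nlinarith
  · intro c α ε τ hα hε0 hε1 hτ
    have hεp : 0 < ε := lt_of_lt_of_le (by positivity) hε0
    have hyε : 1 ≤ 4 * (ε * Real.log (y + 1)) := by
      have h4 : 1 ≤ ε * Real.log H := by
        rw [div_le_iff₀ hlogH] at hε0
        exact hε0
      calc (1 : ℝ) ≤ ε * Real.log H := h4
        _ ≤ ε * (4 * Real.log (y + 1)) := by gcongr
        _ = _ := by ring
    have hs1 : ss (n + 1) ε = (n : ℂ) / 2 + 1 + ε := by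
      unfold ss
      push_cast
      ring
    have h1 := one h hθ hα hγ y hy1 ε τ hεp hε1 hyε
    rw [← hbt, ← hK, hs1] at h1
    have h2 := ZT_le (N := NN E n p₀) (tt n θ) y k c ε τ hεp.le hε1 (by linarith)
    set X := Real.log ‖LP α (n / 2 + 1 + ε + τ * Complex.I)‖ -
      Real.log ‖LP γ (n / 2 + 1 + ε + τ * Complex.I)‖
    set z := ‖ZT (NN E n p₀) (tt n θ) y c (ε + τ * Complex.I)‖
    set w := ∑ p ∈ PR y, bb (NN E n p₀) (BB P p₀) bt p (red p c)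
    have h4 : X ^ 2 ≤ ((ρ + 1) * z + (ρ + 1) * w + K) ^ 2 := by
      rw [← sq_abs X]
      exact pow_le_pow_left₀ (abs_nonneg X) h1 2
    have h5 : ((ρ + 1) * z + (ρ + 1) * w + K) ^ 2 ≤
        3 * ((ρ + 1) * z) ^ 2 + 3 * ((ρ + 1) * w) ^ 2 + 3 * K ^ 2 := by
      have g : ∀ a b c : ℝ, (a + b + c) ^ 2 ≤ 3 * a ^ 2 + 3 * b ^ 2 + 3 * c ^ 2 := by
        intro a b c
        nlinarith [sq_nonneg (a - b), sq_nonneg (a - c), sq_nonneg (b - c)]
      exact g _ _ _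
    have h6 : 3 * (((ρ : ℝ) + 1) * z) ^ 2 ≤ 3 * (ρ + 1) ^ 2 * G3 (NN E n p₀) (tt n θ) y k c := by
      have h7 : 3 * (((ρ : ℝ) + 1) * z) ^ 2 = 3 * ((ρ : ℝ) + 1) ^ 2 * z ^ 2 := by ring
      rw [h7]
      exact mul_le_mul_of_nonneg_left h2 (by positivity)
    have h8 : 3 * (((ρ : ℝ) + 1) * w) ^ 2 = 3 * ((ρ : ℝ) + 1) ^ 2 * w ^ 2 := by ring
    rw [h8] at h5
    exact (h4.trans h5).trans (by linarith)

end

end Pool.Agent.L0h50.NL
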