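import Mathlib
import Pool.Agent.L0h50.NL.Main

/-!
# Projective space, and the order of the pole
-/

set_option autoImplicit false

namespace Pool.Agent.L0h50.NL

open Finset Pool.Agent.Y722.HS Pool.Agent.Y722.LS Pool.Agent.N534.TL Filter Topology

/-- The Betti numbers of `ℙ^D`. -/
def projBetti (D k : ℕ) : ℕ := if Even k ∧ k ≤ 2 * D then 1 else 0

/-- The eigenvalues of the Frobenius at `p` on the cohomology of projective space. -/
noncomputable def projEigen (D p k : ℕ) (_ : Fin (projBetti D k)) : ℂ := (p : ℂ) ^ (k / 2)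

theorem sum_projEigen (D p k e : ℕ) (hk : Even k) (h : k ≤ 2 * D) :
    ∑ j, projEigen D p k j ^ e = (p : ℂ) ^ (k / 2 * e) := by
  unfold projEigen
  rw [Finset.sum_const, Finset.card_univ, Fintype.card_fin, projBetti, if_pos ⟨hk, h⟩, one_smul,
    ← pow_mul]

theorem sum_projEigen' (D p k e : ℕ) (hk : ¬ (Even k ∧ k ≤ 2 * D)) :
    ∑ j, projEigen D p k j ^ e = 0 := by
  unfold projEigen
  rw [Finset.sum_const, Finset.card_univ, Fintype.card_fin, projBetti, if_neg hk, zero_smul]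

theorem card_cone (D p e : ℕ) [Fact p.Prime] (he : 1 ≤ e) :
    (Nat.card {x : Fin (D + 1) → GaloisField p e // x ≠ 0 ∧
      ∀ g ∈ (∅ : Set (MvPolynomial (Fin (D + 1)) ℤ)), MvPolynomial.aeval x g = 0} : ℂ) =
        ((p : ℂ) ^ e) ^ (D + 1) - 1 := by
  classical
  have hc : Nat.card (GaloisField p e) = p ^ e := GaloisField.card p e (by omega)
  have hfin : Finite (GaloisField p e) := Nat.finite_of_card_ne_zero (by
    rw [hc]
    exact pow_ne_zero _ (Fact.out : p.Prime).ne_zero)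
  have := Fintype.ofFinite (GaloisField p e)
  have h1 : Nat.card {x : Fin (D + 1) → GaloisField p e // x ≠ 0 ∧
      ∀ g ∈ (∅ : Set (MvPolynomial (Fin (D + 1)) ℤ)), MvPolynomial.aeval x g = 0} =
      Nat.card {x : Fin (D + 1) → GaloisField p e // ¬ x = 0} := by
    refine Nat.card_congr (Equiv.subtypeEquivRight fun x => ?_)
    simp
  have h2 : Nat.card {x : Fin (D + 1) → GaloisField p e // ¬ x = 0} + 1 = (p ^ e) ^ (D + 1) := by
    have h3 : Fintype.card {x : Fin (D + 1) → GaloisField p e // ¬ x = 0} =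
        Fintype.card (Fin (D + 1) → GaloisField p e) -
          Fintype.card {x : Fin (D + 1) → GaloisField p e // x = 0} := Fintype.card_subtype_compl _
    rw [Nat.card_eq_fintype_card, h3, Fintype.card_subtype_eq, Fintype.card_fun, Fintype.card_fin,
      ← Nat.card_eq_fintype_card (α := GaloisField p e), hc]
    have : 0 < (p ^ e) ^ (D + 1) := pow_pos (pow_pos (Fact.out : p.Prime).pos _) _
    omega
  rw [h1]
  have h3 : ((Nat.card {x : Fin (D + 1) → GaloisField p e // ¬ x = 0} + 1 : ℕ) : ℂ) =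
      (((p ^ e) ^ (D + 1) : ℕ) : ℂ) := by rw [h2]
  push_cast at h3
  linear_combination h3

theorem isCohomology_proj (D : ℕ) :
    IsCohomology (∅ : Set (MvPolynomial (Fin (D + 1)) ℤ)) D 0 (projBetti D) (projEigen D) where
  weight p hp _ k j := by
    have hk : Even k ∧ k ≤ 2 * D := by
      by_contra h
      have h1 : projBetti D k = 0 := by unfold projBetti; rw [if_neg h]
      exact absurd (lt_of_lt_of_eq j.2 h1) (Nat.not_lt_zero _)
    obtain ⟨m, hm⟩ := hk.1
    unfold projEigen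
    rw [norm_pow, Complex.norm_natCast, ← Real.rpow_natCast]
    congr 1
    have : k / 2 = m := by omega
    rw [this, hm]
    push_cast
    ring
  trace p _ _ e he := by
    have hp := (Fact.out : p.Prime)
    have hq : (1 : ℝ) < (p : ℝ) ^ e := one_lt_pow₀ (by exact_mod_cast hp.one_lt) (by omega)
    have hq1 : ((p : ℂ) ^ e - 1) ≠ 0 := by
      have h1 : (((p : ℝ) ^ e - 1 : ℝ) : ℂ) ≠ 0 := by
        rw [Complex.ofReal_ne_zero]
        linarith
      push_cast at h1
      exact h1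
    unfold points
    rw [card_cone D p e he, div_eq_iff hq1]
    have h2 : ∑ k ∈ Finset.range (2 * D + 1), (-1 : ℂ) ^ k * ∑ j, projEigen D p k j ^ e =
        ∑ m ∈ Finset.range (D + 1), ((p : ℂ) ^ e) ^ m := by
      symm
      refine Finset.sum_of_injOn (fun m => 2 * m) ?_ ?_ ?_ ?_
      · intro a _ b _ h
        simpa using h
      · intro m hm
        simp only [Finset.coe_range, Set.mem_Iio] at hm ⊢
        omega
      · intro k hk hk'
        rw [sum_projEigen', mul_zero]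
        rintro ⟨⟨m, hm⟩, h2⟩
        apply hk'
        refine ⟨m, ?_, ?_⟩
        · simp only [Finset.coe_range, Set.mem_Iio]
          omega
        · simp only
          omega
      · intro m hm
        rw [Finset.mem_range] at hm
        rw [sum_projEigen D p (2 * m) e (even_two_mul m) (by omega), pow_mul]
        simp only [even_two, Even.neg_pow, one_pow, one_mul]
        rw [← pow_mul]
        congr 1
        rw [Nat.mul_div_cancel_left _ (by norm_num)]
        ring
    rw [h2]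
    have h3 := geom_sum_mul ((p : ℂ) ^ e) (D + 1)
    rw [h3]
  lefschetz p hp _ k hk e he := by
    by_cases h : Even k
    · have h2 : Even (2 * D - k) := by
        obtain ⟨m, hm⟩ := h
        exact ⟨D - m, by omega⟩
      rw [sum_projEigen D p k e h (by omega), sum_projEigen D p (2 * D - k) e h2 (by omega), ← pow_add]
      congr 1
      obtain ⟨m, hm⟩ := h
      have e1 : (2 * D - k) / 2 = D - m := by omega
      have e2 : k / 2 = m := by omega
      rw [e1, e2, ← Nat.add_mul]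
      congr 1
      omega
    · have h2 : ¬ Even (2 * D - k) := by
        rintro ⟨m, hm⟩
        exact h ⟨D - m, by omega⟩
      rw [sum_projEigen' D p k e (fun h' => h h'.1),
        sum_projEigen' D p (2 * D - k) e (fun h' => h2 h'.1), mul_zero]

/-- The zeta function of `ℙ^D` in degree `2 m`. -/
theorem isAmbient_proj (D m : ℕ) (hm : m ≤ D) :
    IsAmbient (2 * m) 0 (projEigen D) (fun _ _ => 1 : ℕ → Fin 1 → ℂ)
      (fun p _ => (p : ℂ) ^ m : ℕ → Fin 1 → ℂ) where
  bound p hp j := by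
    rw [norm_pow, Complex.norm_natCast, ← Real.rpow_natCast]
    apply le_of_eq
    congr 1
    push_cast
    ring
  power p hp _ e he := by
    rw [sum_projEigen D p (2 * m) e (even_two_mul m) (by omega)]
    simp only [Finset.univ_unique, Finset.sum_const, Finset.card_singleton, one_smul, one_pow, mul_one]
    rw [Nat.mul_div_cancel_left _ (by norm_num), pow_mul]

theorem LP_proj (m : ℕ) (ε τ : ℝ) (hε : 0 < ε) :
    LP (fun p _ => (p : ℂ) ^ m : ℕ → Fin 1 → ℂ) (((2 * m : ℕ) : ℂ) / 2 + 1 + ε + τ * Complex.I) =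
      riemannZeta (1 + ε + τ * Complex.I) := by
  have h6 := riemannZeta_eulerProduct_tprod (s := 1 + (ε : ℂ) + τ * Complex.I) (by simp [hε])
  rw [← h6, LP]
  refine tprod_congr fun p => ?_
  have hp0 : ((p : ℕ) : ℂ) ≠ 0 := by exact_mod_cast p.2.ne_zero
  simp only [Finset.univ_unique, Finset.prod_singleton]
  congr 2
  rw [← Complex.cpow_natCast, ← Complex.cpow_add _ _ hp0]
  congr 1
  push_cast
  ring

/-- `L(s) = ∏_p ∏_j (1 - γ p j p^{-s})⁻¹` has a meromorphic continuation to a neighbourhood of `s = n/2 + 1`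
with a pole of order `m` there. -/
def HasPole (n : ℕ) {B : ℕ} (γ : ℕ → Fin B → ℂ) (m : ℤ) : Prop :=
  ∃ Λ : ℂ → ℂ, MeromorphicAt Λ ((n : ℂ) / 2 + 1) ∧
    (∀ᶠ s in 𝓝 ((n : ℂ) / 2 + 1), (n : ℝ) / 2 + 1 < s.re → Λ s = LP γ s) ∧
    meromorphicOrderAt Λ ((n : ℂ) / 2 + 1) = ((-m : ℤ) : WithTop ℤ)

theorem pole_near {n : ℕ} {B : ℕ} {γ : ℕ → Fin B → ℂ}
    (hγ : ∀ p : ℕ, p.Prime → ∀ j, ‖γ p j‖ ≤ (p : ℝ) ^ ((n : ℝ) / 2)) {m : ℤ} (h : HasPole n γ m) :
    ∃ C : ℝ, 0 ≤ C ∧ ∀ ε : ℝ, 0 < ε → ε ≤ 1 →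
      |Real.log ‖LP γ (n / 2 + 1 + ε)‖ - m * Real.log (1 / ε)| ≤ C := by
  obtain ⟨Λ, h1, h2, h3⟩ := h
  obtain ⟨g, hg1, hg2, hg3⟩ := (meromorphicOrderAt_eq_int_iff h1).mp h3
  set z : ℂ := (n : ℂ) / 2 + 1 with hz
  have hcont : Tendsto (fun ε : ℝ => z + (ε : ℂ)) (𝓝[>] 0) (𝓝 z) := by
    have : Tendsto (fun ε : ℝ => z + (ε : ℂ)) (𝓝 0) (𝓝 (z + ((0 : ℝ) : ℂ))) :=
      (continuous_const.add Complex.continuous_ofReal).tendsto 0
    rw [Complex.ofReal_zero, add_zero] at this
    exact this.mono_left nhdsWithin_le_nhds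
  have hcont' : Tendsto (fun ε : ℝ => z + (ε : ℂ)) (𝓝[>] 0) (𝓝[≠] z) := by
    refine tendsto_nhdsWithin_iff.mpr ⟨hcont, ?_⟩
    filter_upwards [self_mem_nhdsWithin] with ε hε
    simp only [Set.mem_compl_iff, Set.mem_singleton_iff, add_eq_left, Complex.ofReal_eq_zero]
    exact (Set.mem_Ioi.mp hε).ne'
  have e1 := hcont.eventually h2
  have e2 := hcont'.eventually hg3
  have e3 : Tendsto (fun ε : ℝ => Real.log ‖g (z + (ε : ℂ))‖) (𝓝[>] 0) (𝓝 (Real.log ‖g z‖)) :=
    ((hg1.continuousAt.tendsto.comp hcont).norm).log (norm_ne_zero_iff.mpr hg2)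
  have e4 : ∀ᶠ ε : ℝ in 𝓝[>] 0, |Real.log ‖g (z + (ε : ℂ))‖ - Real.log ‖g z‖| < 1 := by
    have := e3.sub_const (Real.log ‖g z‖)
    rw [sub_self] at this
    have h5 := this.abs
    rw [abs_zero] at h5
    exact h5.eventually (gt_mem_nhds one_pos)
  obtain ⟨e₀, he₀, hev⟩ : ∃ e₀ > 0, ∀ ε : ℝ, 0 < ε → ε < e₀ →
      |Real.log ‖LP γ (z + ε)‖ - m * Real.log (1 / ε)| ≤ |Real.log ‖g z‖| + 1 := by
    have h5 : ∀ᶠ ε : ℝ in 𝓝[>] 0, |Real.log ‖LP γ (z + ε)‖ - m * Real.log (1 / ε)| ≤
        |Real.log ‖g z‖| + 1 := by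
      filter_upwards [e1, e2, e4, self_mem_nhdsWithin] with ε a1 a2 a4 a5
      have hε : 0 < ε := a5
      have a6 : (n : ℝ) / 2 + 1 < (z + (ε : ℂ)).re := by
        have : (z + (ε : ℂ)).re = (n : ℝ) / 2 + 1 + ε := by
          rw [hz]
          have : ((n : ℂ) / 2 + 1 + (ε : ℂ)) = (((n : ℝ) / 2 + 1 + ε : ℝ) : ℂ) := by push_cast; ring
          rw [this, Complex.ofReal_re]
        rw [this]
        linarith
      have a7 := a1 a6
      rw [← a7, a2, smul_eq_mul, norm_mul]
      have a8 : ‖(z + (ε : ℂ) - z) ^ (-m)‖ = ε ^ (-m) := by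
        rw [add_sub_cancel_left, norm_zpow, Complex.norm_real, Real.norm_of_nonneg hε.le]
      rw [a8]
      have a9 : 0 < ‖g (z + (ε : ℂ))‖ ∨ ‖g (z + (ε : ℂ))‖ = 0 := by
        rcases (norm_nonneg (g (z + (ε : ℂ)))).lt_or_eq with h | h
        · exact Or.inl h
        · exact Or.inr h.symm
      have a12 : Real.log (ε ^ (-m)) = m * Real.log (1 / ε) := by
        rw [Real.log_zpow, one_div, Real.log_inv]
        push_cast
        ring
      rcases a9 with a9 | a9
      · rw [Real.log_mul (zpow_pos hε _).ne' a9.ne', a12, add_sub_cancel_left]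
        have := abs_sub_abs_le_abs_sub (Real.log ‖g (z + (ε : ℂ))‖) (Real.log ‖g z‖)
        linarith
      · exfalso
        have h10 : LP γ (z + (ε : ℂ)) = 0 := by
          rw [← a7, a2, norm_eq_zero.mp a9, smul_zero]
        have h11 : z + (ε : ℂ) = ss (n + 1) ε := by
          rw [hz]
          unfold ss
          push_cast
          ring
        rw [h11, LP_eq (n := n + 1) hε (by
          intro p hp j
          have e : (((n + 1 : ℕ) : ℝ) - 1) / 2 = (n : ℝ) / 2 := by push_cast; ring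
          rw [e]
          exact hγ p hp j)] at h10
        exact Complex.exp_ne_zero _ h10
    rw [eventually_nhdsWithin_iff, Metric.eventually_nhds_iff] at h5
    obtain ⟨e₀, he₀, h6⟩ := h5
    refine ⟨e₀, he₀, fun ε hε hε' => h6 ?_ hε⟩
    rw [Real.dist_eq, sub_zero, abs_of_pos hε]
    exact hε'
  -- away from the point
  have hα : ∀ p : ℕ, p.Prime → ∀ j, ‖γ p j‖ ≤ (p : ℝ) ^ ((((n + 1 : ℕ) : ℝ) - 1) / 2) := by
    intro p hp j
    have e : (((n + 1 : ℕ) : ℝ) - 1) / 2 = (n : ℝ) / 2 := by push_cast; ring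
    rw [e]
    exact hγ p hp j
  set S : ℝ := ∑' p : Nat.Primes, 2 * (B : ℝ) * ((p : ℕ) : ℝ) ^ (-1 - e₀) with hS
  have hS0 : 0 ≤ S := tsum_nonneg fun p => by positivity
  refine ⟨|Real.log ‖g z‖| + 1 + (S + |(m : ℝ)| * |Real.log (1 / e₀)|), by positivity, fun ε hε hε1 => ?_⟩
  have hz' : (n : ℂ) / 2 + 1 + (ε : ℂ) = z + ε := by rw [hz]
  rw [hz']
  by_cases hlt : ε < e₀
  · have := hev ε hε hlt
    have h7 : 0 ≤ S + |(m : ℝ)| * |Real.log (1 / e₀)| := by positivity
    linarith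
  · push Not at hlt
    have h11 : z + (ε : ℂ) = ss (n + 1) ε := by
      rw [hz]
      unfold ss
      push_cast
      ring
    rw [h11, LP_eq (n := n + 1) hε hα, Complex.norm_exp, Real.log_exp]
    have h8 : |(∑' p : Nat.Primes, gl (n + 1) γ ε p).re| ≤ S := by
      refine (Complex.abs_re_le_norm _).trans ?_
      refine tsum_of_norm_bounded ((summable_primes he₀).mul_left (2 * (B : ℝ))).hasSum fun p => ?_
      refine (gl_le hε.le hα p p.2).trans ?_
      have hp1 : (1 : ℝ) ≤ ((p : ℕ) : ℝ) := by exact_mod_cast p.2.one_lt.le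
      gcongr
    have h9 : |(m : ℝ) * Real.log (1 / ε)| ≤ |(m : ℝ)| * |Real.log (1 / e₀)| := by
      rw [abs_mul]
      have g1 : 0 ≤ Real.log (1 / ε) := Real.log_nonneg (by rw [le_div_iff₀ hε]; linarith)
      have g2 : Real.log (1 / ε) ≤ Real.log (1 / e₀) := by
        apply Real.log_le_log (by positivity)
        exact one_div_le_one_div_of_le he₀ hlt
      rw [abs_of_nonneg g1, abs_of_nonneg (g1.trans g2)]
      gcongr
    have h10 := abs_sub ((∑' p : Nat.Primes, gl (n + 1) γ ε p).re) ((m : ℝ) * Real.log (1 / ε))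
    have h12 : 0 ≤ |Real.log ‖g z‖| + 1 := by positivity
    linarith

end Pool.Agent.L0h50.NL
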